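import Mathlib
import Pool.Agent.H759R2.Kad.Props5

/-!
Automatic continuity of derivations of von Neumann algebras into `B(H)`: statements.
-/

open scoped ComplexOrder InnerProductSpace

noncomputable section

namespace H770R2.Kad

open H759R2.Kad

universe u

section defs

variable {H : Type u} [NormedAddCommGroup H] [InnerProductSpace ℂ H] [CompleteSpace H]

/-- A (not necessarily bounded) derivation of `M` into `B(H)`. -/
def IsUDer (M : VonNeumannAlgebra H) (δ : M.toStarSubalgebra →ₗ[ℂ] (H →L[ℂ] H)) : Prop :=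
  ∀ a b, δ (a * b) = (a : H →L[ℂ] H) * δ b + δ a * (b : H →L[ℂ] H)

/-- `x ↦ a δ(x)` is continuous. -/
def LC (M : VonNeumannAlgebra H) (δ : M.toStarSubalgebra →ₗ[ℂ] (H →L[ℂ] H))
    (a : M.toStarSubalgebra) : Prop :=
  Continuous fun x => (a : H →L[ℂ] H) * δ x

/-- No infinite orthogonal sequence of nonzero projections of `M` under `f`. -/
def NoSeq (M : VonNeumannAlgebra H) (f : H →L[ℂ] H) : Prop :=
  ¬ ∃ p : ℕ → (H →L[ℂ] H), (∀ n, p n ∈ M ∧ IsPr (p n) ∧ p n ≠ 0 ∧ f * p n = p n) ∧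
    ∀ m n, m ≠ n → p m * p n = 0

end defs

/-- The elements `a` with `x ↦ a δ(x)` continuous: the central projection `f`. -/
def R_cen : Prop :=
  ∀ (H : Type u) [NormedAddCommGroup H] [InnerProductSpace ℂ H] [CompleteSpace H]
    (M : VonNeumannAlgebra H) (δ : M.toStarSubalgebra →ₗ[ℂ] (H →L[ℂ] H)), IsUDer M δ →
    ∃ f : M.toStarSubalgebra, IsPr (f : H →L[ℂ] H) ∧ (∀ a, f * a = a * f) ∧
      LC M δ (1 - f) ∧ ∀ b, LC M δ b → b * f = 0

/-- Gliding hump. -/
def R_hump : Prop :=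
  ∀ (H : Type u) [NormedAddCommGroup H] [InnerProductSpace ℂ H] [CompleteSpace H]
    (M : VonNeumannAlgebra H) (δ : M.toStarSubalgebra →ₗ[ℂ] (H →L[ℂ] H)), IsUDer M δ →
    ∀ p : ℕ → M.toStarSubalgebra, (∀ n, IsPr (p n : H →L[ℂ] H)) →
      (∀ m n, m ≠ n → p m * p n = 0) → ∃ n, LC M δ (p n)

/-- Finite dimension from the absence of infinite orthogonal sequences. -/
def R_fin : Prop :=
  ∀ (H : Type u) [NormedAddCommGroup H] [InnerProductSpace ℂ H] [CompleteSpace H]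
    (M : VonNeumannAlgebra H) (f : M.toStarSubalgebra), IsPr (f : H →L[ℂ] H) →
    NoSeq M (f : H →L[ℂ] H) → ∃ (k : ℕ) (v : Fin k → M.toStarSubalgebra),
      ∀ a, f * a * f ∈ Submodule.span ℂ (Set.range v)

/-- Automatic continuity. -/
def R_cont : Prop :=
  ∀ (H : Type u) [NormedAddCommGroup H] [InnerProductSpace ℂ H] [CompleteSpace H]
    (M : VonNeumannAlgebra H) (δ : M.toStarSubalgebra →ₗ[ℂ] (H →L[ℂ] H)), IsUDer M δ →
    ∃ C : ℝ, 0 ≤ C ∧ ∀ a, ‖δ a‖ ≤ C * ‖a‖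

end H770R2.Kad
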