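import Mathlib
import Pool.Agent.H759R2.Kad.Props3
import Pool.Agent.H759R2.Kad.Props4
import Pool.Agent.H759R2.Kad.Props5
import Pool.Agent.H710R2.DP.Defs2

/-!
From fibre algebras to all C*-algebras: statements of the pieces.
-/

open scoped ComplexOrder InnerProductSpace

noncomputable section

namespace H770R2.Kad

open H759R2.Kad

universe u v

section defs

variable {A : Type u} [CStarAlgebra A]
  {H : Type v} [NormedAddCommGroup H] [InnerProductSpace ℂ H] [CompleteSpace H]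

/-- `D` is a derivation relative to `π`. -/
def IsDv (π : A →⋆ₐ[ℂ] (H →L[ℂ] H)) (D : A →ₗ[ℂ] (H →L[ℂ] H)) : Prop :=
  ∀ a b, D (a * b) = π a * D b + D a * π b

/-- `ι` is a faithful representation onto a von Neumann algebra: everything that commutes with
the commutant of the range is in the range. -/
structure IsVNR (ι : A →⋆ₐ[ℂ] (H →L[ℂ] H)) : Prop where
  inj : Function.Injective ι
  bic : ∀ x : H →L[ℂ] H, (∀ y : H →L[ℂ] H, (∀ a, y * ι a = ι a * y) → y * x = x * y) →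
    ∃ a, ι a = x

end defs

/-- Kaplansky density for the bicommutant of the range of a representation. -/
def G_kap : Prop :=
  ∀ (A : Type u) [CStarAlgebra A] (H : Type v) [NormedAddCommGroup H] [InnerProductSpace ℂ H]
    [CompleteSpace H] (π : A →⋆ₐ[ℂ] (H →L[ℂ] H)) (x : H →L[ℂ] H), IsSelfAdjoint x → ‖x‖ ≤ 1 →
    (∀ y : H →L[ℂ] H, (∀ a, y * π a = π a * y) → y * x = x * y) →
    ∀ (n : ℕ) (ξ : Fin n → H) (ε : ℝ), 0 < ε →
    ∃ a : A, IsSelfAdjoint a ∧ ‖a‖ ≤ 1 ∧ ∀ k, ‖π a (ξ k) - x (ξ k)‖ < ε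

/-- Kadison's continuity estimate. -/
def G_kad : Prop :=
  ∀ (A : Type u) [CStarAlgebra A] (H : Type v) [NormedAddCommGroup H] [InnerProductSpace ℂ H]
    [CompleteSpace H] (π : A →⋆ₐ[ℂ] (H →L[ℂ] H)) (D : A →ₗ[ℂ] (H →L[ℂ] H)), IsDv π D →
    ∀ C : ℝ, 0 ≤ C → (∀ a, ‖D a‖ ≤ C * ‖a‖) → ∀ c : A, IsSelfAdjoint c → ‖c‖ ≤ 1 →
    ∀ ξ η : H, ‖⟪η, D c ξ⟫_ℂ‖ ≤
      2 * C * (√(‖π c η‖ * ‖η‖) * ‖ξ‖ + ‖η‖ * √(‖π c ξ‖ * ‖ξ‖))

/-- The index set of the nets. -/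
abbrev Ix (H : Type v) : Type v := Finset H × ℕ

/-- The bounded net `a` in `A` converges *-strongly to the operator `x`. -/
structure Conv {A : Type u} [CStarAlgebra A] {H : Type v} [NormedAddCommGroup H]
    [InnerProductSpace ℂ H] [CompleteSpace H] (π : A →⋆ₐ[ℂ] (H →L[ℂ] H)) (a : Ix H → A)
    (x : H →L[ℂ] H) : Prop where
  bdd : ∃ r : ℝ, ∀ i, ‖a i‖ ≤ r
  lim : ∀ ζ, Filter.Tendsto (fun i => π (a i) ζ) Filter.atTop (nhds (x ζ))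
  slim : ∀ ζ, Filter.Tendsto (fun i => π (star (a i)) ζ) Filter.atTop (nhds (star x ζ))

/-- Every element of the bicommutant is the limit of a bounded net. -/
def G_net : Prop :=
  ∀ (A : Type u) [CStarAlgebra A] (H : Type v) [NormedAddCommGroup H] [InnerProductSpace ℂ H]
    [CompleteSpace H] (π : A →⋆ₐ[ℂ] (H →L[ℂ] H)) (x : H →L[ℂ] H),
    (∀ y : H →L[ℂ] H, (∀ a, y * π a = π a * y) → y * x = x * y) →
    ∃ a : Ix H → A, Conv π a x ∧ ∀ i, ‖a i‖ ≤ 2 * ‖x‖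

/-- Continuity of derivations at `0`. -/
def G_null : Prop :=
  ∀ (A : Type u) [CStarAlgebra A] (H : Type v) [NormedAddCommGroup H] [InnerProductSpace ℂ H]
    [CompleteSpace H] (π : A →⋆ₐ[ℂ] (H →L[ℂ] H)) (D : A →ₗ[ℂ] (H →L[ℂ] H)), IsDv π D →
    ∀ C : ℝ, 0 ≤ C → (∀ a, ‖D a‖ ≤ C * ‖a‖) → ∀ a : Ix H → A, Conv π a 0 → ∀ ξ η : H,
    Filter.Tendsto (fun i => ⟪η, D (a i) ξ⟫_ℂ) Filter.atTop (nhds 0)

/-- Weak limits of bounded nets along ultrafilters. -/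
def G_wlim : Prop :=
  ∀ (H : Type v) [NormedAddCommGroup H] [InnerProductSpace ℂ H] [CompleteSpace H] (I : Type v)
    (U : Ultrafilter I) (T : I → (H →L[ℂ] H)) (r : ℝ), 0 ≤ r → (∀ i, ‖T i‖ ≤ r) →
    ∃ E : H →L[ℂ] H, ‖E‖ ≤ r ∧
      ∀ ξ η : H, Filter.Tendsto (fun i => ⟪η, T i ξ⟫_ℂ) U (nhds ⟪η, E ξ⟫_ℂ)

/-- Norm preserving lifts along *-homomorphisms. -/
def G_lift : Prop :=
  ∀ (A : Type u) [CStarAlgebra A] (B : Type v) [CStarAlgebra B] (φ : A →⋆ₐ[ℂ] B) (a : A),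
    ∃ a' : A, φ a' = φ a ∧ ‖a'‖ ≤ ‖φ a‖

/-- A bounded derivation passes to the image under a representation of a larger algebra `R`, which
contains the image of `A` (under `ι`) and the values of the derivation. -/
def G_quot : Prop :=
  ∀ (A : Type u) [CStarAlgebra A] (R : Type u) [CStarAlgebra R] (ι : A →⋆ₐ[ℂ] R)
    (D : A →ₗ[ℂ] R), (∀ a b, D (a * b) = ι a * D b + D a * ι b) →
    ∀ C : ℝ, 0 ≤ C → (∀ a, ‖D a‖ ≤ C * ‖a‖) →
    ∀ (K : Type v) [NormedAddCommGroup K] [InnerProductSpace ℂ K] [CompleteSpace K]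
      (ρ : R →⋆ₐ[ℂ] (K →L[ℂ] K)),
    ∃ (B : Type v) (_ : CStarAlgebra B) (φ : A →⋆ₐ[ℂ] B) (j : B →⋆ₐ[ℂ] (K →L[ℂ] K))
      (D' : B →ₗ[ℂ] (K →L[ℂ] K)), Function.Surjective φ ∧ Function.Injective j ∧
      (∀ a, j (φ a) = ρ (ι a)) ∧ (∀ a, D' (φ a) = ρ (D a)) ∧ IsDv j D' ∧
      ∀ b, ‖D' b‖ ≤ C * ‖b‖

/-- Norm attaining states that are multiplicative on the centre (extreme points). -/
def G_pure : Prop :=
  ∀ (C : Type u) [CStarAlgebra C] (E : Type v) [NormedAddCommGroup E] [InnerProductSpace ℂ E]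
    [CompleteSpace E] (j : C →⋆ₐ[ℂ] (E →L[ℂ] E)), Function.Injective j → ∀ Y : C, Y ≠ 0 →
    ∃ φ : C →ₗ[ℂ] ℂ, φ 1 = 1 ∧ (∀ a, 0 ≤ φ (star a * a)) ∧ φ (star Y * Y) = (‖Y‖ ^ 2 : ℝ) ∧
      ∀ z, (∀ a, z * a = a * z) → ∀ a, φ (z * a) = φ z * φ a

/-- The GNS construction. -/
def G_gns : Prop :=
  ∀ (C : Type u) [CStarAlgebra C] (φ : C →ₗ[ℂ] ℂ), φ 1 = 1 → (∀ a, 0 ≤ φ (star a * a)) →
    ∃ (K : Type u) (_ : NormedAddCommGroup K) (_ : InnerProductSpace ℂ K) (_ : CompleteSpace K)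
      (σ : C →⋆ₐ[ℂ] (K →L[ℂ] K)) (Ω : K), ‖Ω‖ = 1 ∧ (∀ a, ⟪Ω, σ a Ω⟫_ℂ = φ a) ∧
      Dense (Set.range fun a => σ a Ω)

/-- Representations of `R` in which the centre acts by scalars and a given matrix over `R` keeps
its norm. -/
def G_rep : Prop :=
  ∀ (R : Type u) [CStarAlgebra R] [PartialOrder R] [StarOrderedRing R]
    (E : Type v) [NormedAddCommGroup E] [InnerProductSpace ℂ E]
    [CompleteSpace E] (j : R →⋆ₐ[ℂ] (E →L[ℂ] E)), Function.Injective j → ∀ m : ℕ, 0 < m →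
    ∀ Y : CStarMatrix (Fin m) (Fin m) R, Y ≠ 0 →
    ∃ (K : Type u) (_ : NormedAddCommGroup K) (_ : InnerProductSpace ℂ K) (_ : CompleteSpace K)
      (ρ : R →⋆ₐ[ℂ] (K →L[ℂ] K)), ‖Y‖ ≤ ‖amp ρ.toLinearMap (Fin m) Y‖ ∧
      ∀ z : R, (∀ a, z * a = a * z) → ∃ c : ℂ, ρ z = c • 1

/-- Amplification of `[[π, D], [0, π]]`. -/
def G_corner : Prop :=
  ∀ (A : Type u) [CStarAlgebra A] [PartialOrder A] [StarOrderedRing A]
    (H : Type v) [NormedAddCommGroup H] [InnerProductSpace ℂ H]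
    [CompleteSpace H] (π : A →⋆ₐ[ℂ] (H →L[ℂ] H)) (D : A →ₗ[ℂ] (H →L[ℂ] H)) (m : ℕ)
    (X : CStarMatrix (Fin m) (Fin m) A),
    ‖amp (uD π D) (Fin m) X‖ ≤ ‖X‖ + ‖amp D (Fin m) X‖ ∧
      ‖amp D (Fin m) X‖ ≤ ‖amp (uD π D) (Fin m) X‖

/-- Extension of a derivation to the von Neumann algebra generated by the image. -/
def X_ext2 : Prop :=
  ∀ (A : Type) [CStarAlgebra A] (H : Type) [NormedAddCommGroup H] [InnerProductSpace ℂ H]
    [CompleteSpace H] (π : A →⋆ₐ[ℂ] (H →L[ℂ] H)) (D : A →ₗ[ℂ] (H →L[ℂ] H)) (d : ℝ), 0 ≤ d →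
    H710R2.DP.IsDerB π D d →
    ∃ (W : VonNeumannAlgebra H) (E : W.toStarSubalgebra →ₗ[ℂ] (H →L[ℂ] H)),
      H710R2.DP.IsDerB (H710R2.DP.inc W) E (2 * d) ∧
      ∀ a : A, ∃ x : W.toStarSubalgebra, (x : H →L[ℂ] H) = π a ∧ E x = D a

end H770R2.Kad
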