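import Mathlib
import Pool.Agent.H770R2.Kad.Kap
import Pool.Agent.H770R2.Kad.Props

/-!
Bounded homomorphisms of all C*-algebras: extension and localisation. Statements.
-/

open scoped ComplexOrder InnerProductSpace

noncomputable section

namespace H770R2.Kad

open H759R2.Kad

universe u v

/-- Pietsch domination of a bounded linear map from a C*-algebra to a Hilbert space by states. -/
def H_piet : Prop :=
  ∀ (A : Type u) [CStarAlgebra A] [PartialOrder A] [StarOrderedRing A] [Nontrivial A]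
    (K : Type v) [NormedAddCommGroup K] [InnerProductSpace ℂ K] [CompleteSpace K]
    (T : A →ₗ[ℂ] K) (M : ℝ), 0 ≤ M → (∀ b, ‖T b‖ ≤ M * ‖b‖) →
    ∃ φ ψ : A →ₗ[ℂ] ℂ, φ 1 = 1 ∧ ψ 1 = 1 ∧ (∀ a, 0 ≤ φ (star a * a)) ∧
      (∀ a, 0 ≤ ψ (star a * a)) ∧
      ∀ a, ‖T a‖ ^ 2 ≤ 3 * M ^ 2 * ((φ (star a * a)).re + (ψ (a * star a)).re)

/-- Direct sums of representations. -/
def H_dsum : Prop :=
  ∀ (A : Type u) [CStarAlgebra A] (I : Type v) (K : I → Type v)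
    [∀ i, NormedAddCommGroup (K i)] [∀ i, InnerProductSpace ℂ (K i)] [∀ i, CompleteSpace (K i)]
    (σ : ∀ i, A →⋆ₐ[ℂ] (K i →L[ℂ] K i)),
    ∃ (L : Type v) (_ : NormedAddCommGroup L) (_ : InnerProductSpace ℂ L) (_ : CompleteSpace L)
      (π : A →⋆ₐ[ℂ] (L →L[ℂ] L)) (V : ∀ i, K i →ₗᵢ[ℂ] L), ∀ i a x, π a (V i x) = V i (σ i a x)

/-- A representation that controls a given bounded linear map into `B(H)`. -/
def H_uni : Prop :=
  ∀ (A : Type) [CStarAlgebra A] [Nontrivial A]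
    (H : Type) [NormedAddCommGroup H] [InnerProductSpace ℂ H] [CompleteSpace H]
    (w : A →ₗ[ℂ] (H →L[ℂ] H)) (c : ℝ), 0 ≤ c → (∀ a, ‖w a‖ ≤ c * ‖a‖) →
    ∃ (L : Type) (_ : NormedAddCommGroup L) (_ : InnerProductSpace ℂ L) (_ : CompleteSpace L)
      (π : A →⋆ₐ[ℂ] (L →L[ℂ] L)),
      ∀ ξ : H, ∃ p q : L, ∀ a, ‖w a ξ‖ ≤ ‖π a p‖ + ‖π (star a) q‖

/-- Extension of a bounded homomorphism to a von Neumann algebra. -/
def H_ext : Prop :=
  ∀ (A : Type) [CStarAlgebra A]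
    (H : Type) [NormedAddCommGroup H] [InnerProductSpace ℂ H] [CompleteSpace H]
    (w : A →ₗ[ℂ] (H →L[ℂ] H)), IsHom w → ∀ c : ℝ, 0 ≤ c → (∀ a, ‖w a‖ ≤ c * ‖a‖) →
    ∀ (L : Type) [NormedAddCommGroup L] [InnerProductSpace ℂ L] [CompleteSpace L]
      (π : A →⋆ₐ[ℂ] (L →L[ℂ] L)),
      (∀ ξ : H, ∃ p q : L, ∀ a, ‖w a ξ‖ ≤ ‖π a p‖ + ‖π (star a) q‖) →
    ∃ (M : VonNeumannAlgebra L) (θ : A →⋆ₐ[ℂ] M.toStarSubalgebra)
      (W : M.toStarSubalgebra →ₗ[ℂ] (H →L[ℂ] H)), IsHom W ∧ (∀ x, ‖W x‖ ≤ 2 * c * ‖x‖) ∧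
      ∀ a, W (θ a) = w a

/-- Bounded family. -/
def Bd {I : Type v} {E : Type*} [Norm E] (x : I → E) : Prop := ∃ r : ℝ, ∀ i, ‖x i‖ ≤ r

/-- `K` is an ultrapower of the Hilbert space `H`: `Q x` is the class of the bounded family `x`,
`O T` is the operator given by the bounded family `T` of operators. -/
structure IsUP {I : Type v} (U : Ultrafilter I)
    {H : Type v} [NormedAddCommGroup H] [InnerProductSpace ℂ H] [CompleteSpace H]
    {K : Type v} [NormedAddCommGroup K] [InnerProductSpace ℂ K] [CompleteSpace K]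
    (Q : (I → H) → K) (O : (I → (H →L[ℂ] H)) → (K →L[ℂ] K)) : Prop where
  inn : ∀ x y, Bd x → Bd y → Filter.Tendsto (fun i => ⟪x i, y i⟫_ℂ) U (nhds ⟪Q x, Q y⟫_ℂ)
  dense : Dense (Q '' {x | Bd x})
  act : ∀ T x, Bd T → Bd x → O T (Q x) = Q (fun i => T i (x i))

/-- Ultrapowers exist. -/
def H_up : Prop :=
  ∀ (I : Type v) (U : Ultrafilter I) (H : Type v) [NormedAddCommGroup H] [InnerProductSpace ℂ H]
    [CompleteSpace H],
    ∃ (K : Type v) (_ : NormedAddCommGroup K) (_ : InnerProductSpace ℂ K) (_ : CompleteSpace K)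
      (Q : (I → H) → K) (O : (I → (H →L[ℂ] H)) → (K →L[ℂ] K)), IsUP U Q O

/-- Algebra of ultrapowers. -/
def H_upalg : Prop :=
  ∀ (I : Type v) (U : Ultrafilter I) (H : Type v) [NormedAddCommGroup H] [InnerProductSpace ℂ H]
    [CompleteSpace H] (K : Type v) [NormedAddCommGroup K] [InnerProductSpace ℂ K]
    [CompleteSpace K] (Q : (I → H) → K) (O : (I → (H →L[ℂ] H)) → (K →L[ℂ] K)), IsUP U Q O →
    (∀ x y (c : ℂ), Bd x → Bd y → Q (fun i => c • x i + y i) = c • Q x + Q y) ∧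
    (∀ S T (c : ℂ), Bd S → Bd T → O (fun i => c • S i + T i) = c • O S + O T) ∧
    (∀ S T, Bd S → Bd T → O (fun i => S i * T i) = O S * O T) ∧
    (∀ S, Bd S → O (fun i => star (S i)) = star (O S)) ∧
    (O (fun _ => 1) = 1) ∧
    (∀ S T, Bd S → Bd T → (∀ᶠ i in (U : Filter I), S i = T i) → O S = O T) ∧
    (∀ S (r : ℝ), 0 ≤ r → Bd S → (∀ᶠ i in (U : Filter I), ‖S i‖ ≤ r) → ‖O S‖ ≤ r) ∧
    (∀ S (r : ℝ), Bd S → (∀ᶠ i in (U : Filter I), r ≤ ‖S i‖) → r ≤ ‖O S‖)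

section ult

variable {L : Type u} [NormedAddCommGroup L] [InnerProductSpace ℂ L] [CompleteSpace L]

/-- Central projection. -/
def CP (M : VonNeumannAlgebra L) (p : M.toStarSubalgebra) : Prop :=
  star p = p ∧ p * p = p ∧ ∀ a, p * a = a * p

/-- Ultrafilter of central projections. -/
structure CUlt (M : VonNeumannAlgebra L) (F : Set M.toStarSubalgebra) : Prop where
  cp : ∀ p ∈ F, CP M p
  one : 1 ∈ F
  mul : ∀ p ∈ F, ∀ q ∈ F, p * q ∈ F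
  em : ∀ p, CP M p → p ∈ F ∨ 1 - p ∈ F
  ne : (0 : M.toStarSubalgebra) ∉ F

end ult

/-- Choice of the ultrafilter. -/
def H_ult : Prop :=
  ∀ (L : Type) [NormedAddCommGroup L] [InnerProductSpace ℂ L] [CompleteSpace L]
    (M : VonNeumannAlgebra L)
    (H : Type) [NormedAddCommGroup H] [InnerProductSpace ℂ H] [CompleteSpace H]
    (W : M.toStarSubalgebra →ₗ[ℂ] (H →L[ℂ] H)), IsHom W → ∀ c : ℝ, 1 ≤ c →
    (∀ a, ‖W a‖ ≤ c * ‖a‖) → ∀ (m : ℕ) (X : CStarMatrix (Fin m) (Fin m) M.toStarSubalgebra),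
    amp W (Fin m) X ≠ 0 → ∃ F, CUlt M F ∧
      ∀ p ∈ F, ‖amp W (Fin m) X‖ ≤ c ^ 3 * ‖dg m (W p) * amp W (Fin m) X‖

/-- The fibre algebra. -/
def H_fib : Prop :=
  ∀ (L : Type) [NormedAddCommGroup L] [InnerProductSpace ℂ L] [CompleteSpace L]
    (M : VonNeumannAlgebra L) (F : Set M.toStarSubalgebra), CUlt M F →
    ∃ (B : Type) (_ : CStarAlgebra B) (φ : M.toStarSubalgebra →⋆ₐ[ℂ] B), Function.Surjective φ ∧
      (∀ z : M.toStarSubalgebra, (∀ a, z * a = a * z) → ∃ c : ℂ, φ z = c • 1) ∧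
      ∀ (a : M.toStarSubalgebra) (r : ℝ), (∀ p ∈ F, r ≤ ‖p * a‖) → r ≤ ‖φ a‖

/-- The fibre of a homomorphism. -/
def H_hfib : Prop :=
  ∀ (L : Type) [NormedAddCommGroup L] [InnerProductSpace ℂ L] [CompleteSpace L]
    (M : VonNeumannAlgebra L) (F : Set M.toStarSubalgebra), CUlt M F →
    ∀ (H : Type) [NormedAddCommGroup H] [InnerProductSpace ℂ H] [CompleteSpace H]
    (W : M.toStarSubalgebra →ₗ[ℂ] (H →L[ℂ] H)), IsHom W → ∀ c : ℝ, 1 ≤ c →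
    (∀ a, ‖W a‖ ≤ c * ‖a‖) → ∀ (m : ℕ) (X : CStarMatrix (Fin m) (Fin m) M.toStarSubalgebra)
      (κ : ℝ), 0 < κ → (∀ p ∈ F, κ ≤ ‖dg m (W p) * amp W (Fin m) X‖) →
    ∃ (K : Type) (_ : NormedAddCommGroup K) (_ : InnerProductSpace ℂ K) (_ : CompleteSpace K)
      (w : M.toStarSubalgebra →ₗ[ℂ] (K →L[ℂ] K)), IsHom w ∧
      (∀ a, ∀ p ∈ F, ‖w a‖ ≤ c * ‖p * a‖) ∧ κ ≤ 2 * c * ‖amp w (Fin m) X‖

/-- The bound for fibre algebras (supplied by helper711). -/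
def H_fibre : Prop :=
  ∀ (H : Type) [NormedAddCommGroup H] [InnerProductSpace ℂ H] [CompleteSpace H]
    (M : VonNeumannAlgebra H) (B : Type) [CStarAlgebra B] [PartialOrder B] [StarOrderedRing B]
    (φ : M.toStarSubalgebra →⋆ₐ[ℂ] B), Function.Surjective φ →
    (∀ z : M.toStarSubalgebra, (∀ a, z * a = a * z) → ∃ c : ℂ, φ z = c • 1) →
    ∀ (K : Type) [NormedAddCommGroup K] [InnerProductSpace ℂ K] [CompleteSpace K]
      (w : B →ₗ[ℂ] (K →L[ℂ] K)), IsHom w → ∀ c : ℝ, 1 ≤ c → (∀ b, ‖w b‖ ≤ c * ‖b‖) →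
    ∀ m : ℕ, LvlBd w m (432 * c ^ 25)

/-- Bounded homomorphisms of von Neumann algebras are completely bounded. -/
def H_vn : Prop :=
  ∀ (L : Type) [NormedAddCommGroup L] [InnerProductSpace ℂ L] [CompleteSpace L]
    (M : VonNeumannAlgebra L) [PartialOrder M.toStarSubalgebra]
    [StarOrderedRing M.toStarSubalgebra]
    (H : Type) [NormedAddCommGroup H] [InnerProductSpace ℂ H] [CompleteSpace H]
    (W : M.toStarSubalgebra →ₗ[ℂ] (H →L[ℂ] H)), IsHom W → ∀ c : ℝ, 1 ≤ c →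
    (∀ a, ‖W a‖ ≤ c * ‖a‖) → ∀ m, LvlBd W m (864 * c ^ 29)

/-- Bounded homomorphisms of C*-algebras are completely bounded. -/
def H_cb : Prop :=
  ∀ (A : Type) [CStarAlgebra A] [PartialOrder A] [StarOrderedRing A]
    (H : Type) [NormedAddCommGroup H] [InnerProductSpace ℂ H] [CompleteSpace H]
    (w : A →ₗ[ℂ] (H →L[ℂ] H)), IsHom w → ∀ c : ℝ, 1 ≤ c → (∀ a, ‖w a‖ ≤ c * ‖a‖) →
    ∀ m, LvlBd w m (864 * (2 * c) ^ 29)

end H770R2.Kad
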