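import Mathlib
import Pool.Agent.H770R2.Kad.Props

/-! Task KAD: Kadison's continuity estimate. -/

open scoped ComplexOrder InnerProductSpace

noncomputable section

namespace H770R2.Kad

open H759R2.Kad

universe u v

namespace KADaux

variable {A : Type u} [CStarAlgebra A]
  {H : Type v} [NormedAddCommGroup H] [InnerProductSpace ℂ H] [CompleteSpace H]

lemma adj (π : A →⋆ₐ[ℂ] (H →L[ℂ] H)) (b : A) (hb : IsSelfAdjoint b) (x y : H) :
    ⟪π b x, y⟫_ℂ = ⟪x, π b y⟫_ℂ := by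
  have h1 : star (π b) = π b := by rw [← map_star, hb.star_eq]
  conv_lhs => rw [← h1, ContinuousLinearMap.star_eq_adjoint]
  rw [ContinuousLinearMap.adjoint_inner_left]

lemma half (π : A →⋆ₐ[ℂ] (H →L[ℂ] H)) (D : A →ₗ[ℂ] (H →L[ℂ] H)) (hD : IsDv π D) (C : ℝ)
    (hC : 0 ≤ C) (hb : ∀ a, ‖D a‖ ≤ C * ‖a‖) (b : A) (hs : IsSelfAdjoint b) (hb1 : ‖b‖ ≤ 1)
    (ξ η : H) : ‖⟪η, D (b * b) ξ⟫_ℂ‖ ≤ C * (‖π b η‖ * ‖ξ‖ + ‖η‖ * ‖π b ξ‖) := by
  have h1 : ‖D b‖ ≤ C := (hb b).trans (by nlinarith)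
  have h2 : ⟪η, D (b * b) ξ⟫_ℂ = ⟪π b η, D b ξ⟫_ℂ + ⟪η, D b (π b ξ)⟫_ℂ := by
    rw [hD b b, add_apply, inner_add_right, adj π b hs]
    rfl
  rw [h2]
  refine (norm_add_le _ _).trans ?_
  have h3 : ‖⟪π b η, D b ξ⟫_ℂ‖ ≤ ‖π b η‖ * (C * ‖ξ‖) :=
    (norm_inner_le_norm _ _).trans (mul_le_mul_of_nonneg_left
      (((D b).le_opNorm ξ).trans (mul_le_mul_of_nonneg_right h1 (norm_nonneg _))) (norm_nonneg _))
  have h4 : ‖⟪η, D b (π b ξ)⟫_ℂ‖ ≤ ‖η‖ * (C * ‖π b ξ‖) :=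
    (norm_inner_le_norm _ _).trans (mul_le_mul_of_nonneg_left
      (((D b).le_opNorm _).trans (mul_le_mul_of_nonneg_right h1 (norm_nonneg _))) (norm_nonneg _))
  calc _ ≤ ‖π b η‖ * (C * ‖ξ‖) + ‖η‖ * (C * ‖π b ξ‖) := add_le_add h3 h4
    _ = _ := by ring

lemma sq_le (π : A →⋆ₐ[ℂ] (H →L[ℂ] H)) (b : A) (hs : IsSelfAdjoint b) (η : H) :
    ‖π b η‖ ≤ √(‖π (b * b) η‖ * ‖η‖) := by
  apply Real.le_sqrt_of_sq_le
  have h1 : ⟪π b η, π b η⟫_ℂ = ⟪η, π (b * b) η⟫_ℂ := by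
    rw [adj π b hs, map_mul]; rfl
  have h2 : ‖⟪π b η, π b η⟫_ℂ‖ = ‖π b η‖ ^ 2 := by
    rw [inner_self_eq_norm_sq_to_K]; simp
  rw [← h2, h1, mul_comm]
  exact norm_inner_le_norm _ _

lemma orth_le (π : A →⋆ₐ[ℂ] (H →L[ℂ] H)) (b b' : A) (hs : IsSelfAdjoint b)
    (h0 : b * b' = 0) (η : H) :
    ‖π (b * b) η‖ ≤ ‖π (b * b - b' * b') η‖ := by
  have h1 : ⟪π (b * b) η, π (b' * b') η⟫_ℂ = 0 := by
    rw [map_mul, map_mul]
    change ⟪π b (π b η), π b' (π b' η)⟫_ℂ = 0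
    rw [adj π b hs]
    have : π b (π b' (π b' η)) = 0 := by
      change (π b * π b') (π b' η) = 0
      rw [← map_mul, h0]; simp
    rw [this, inner_zero_right]
  have h2 : ‖π (b * b - b' * b') η‖ ^ 2 = ‖π (b * b) η‖ ^ 2 + ‖π (b' * b') η‖ ^ 2 := by
    rw [map_sub, sub_apply, @norm_sub_sq ℂ, h1]
    simp
  have h3 : ‖π (b * b) η‖ ^ 2 ≤ ‖π (b * b - b' * b') η‖ ^ 2 := by
    rw [h2]; nlinarith [sq_nonneg ‖π (b' * b') η‖]
  exact le_of_sq_le_sq h3 (norm_nonneg _)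

end KADaux

open KADaux

theorem prove_kad : G_kad.{u, v} := by
  intro A _ H _ _ _ π D hD C hC hb c hc hc1 ξ η
  rcases subsingleton_or_nontrivial A with hA | hA
  · have : c = 0 := Subsingleton.elim _ _
    subst this
    simp
  set gp : ℝ → ℝ := fun t => √(max t 0) with hgp
  set gm : ℝ → ℝ := fun t => √(max (-t) 0) with hgm
  have hgpc : Continuous gp := by fun_prop
  have hgmc : Continuous gm := by fun_prop
  set bp := cfc gp c with hbp
  set bm := cfc gm c with hbm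
  have sp : IsSelfAdjoint bp := cfc_predicate gp c
  have sm : IsSelfAdjoint bm := cfc_predicate gm c
  have hsp : ∀ x ∈ spectrum ℝ c, |x| ≤ 1 := by
    intro x hx
    have := spectrum.norm_le_norm_of_mem hx
    rw [Real.norm_eq_abs] at this
    exact this.trans hc1
  have np : ‖bp‖ ≤ 1 := by
    refine norm_cfc_le zero_le_one fun x hx => ?_
    have := abs_le.1 (hsp x hx)
    rw [Real.norm_eq_abs, abs_of_nonneg (Real.sqrt_nonneg _), Real.sqrt_le_one]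
    exact max_le this.2 zero_le_one
  have nm : ‖bm‖ ≤ 1 := by
    refine norm_cfc_le zero_le_one fun x hx => ?_
    have := abs_le.1 (hsp x hx)
    rw [Real.norm_eq_abs, abs_of_nonneg (Real.sqrt_nonneg _), Real.sqrt_le_one]
    exact max_le (by linarith [this.1]) zero_le_one
  have h0 : bp * bm = 0 := by
    rw [hbp, hbm, ← cfc_mul gp gm c hgpc.continuousOn hgmc.continuousOn]
    have : (fun x => gp x * gm x) = fun _ => (0 : ℝ) := by
      funext x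
      rcases le_total x 0 with h | h
      · simp [hgp, max_eq_right h]
      · simp [hgm, max_eq_right (neg_nonpos.2 h)]
    rw [this]
    simp
  have h0' : bm * bp = 0 := by
    have := congrArg star h0
    rwa [star_mul, sp.star_eq, sm.star_eq, star_zero] at this
  have hsub : bp * bp - bm * bm = c := by
    rw [hbp, hbm, ← cfc_mul gp gp c hgpc.continuousOn hgpc.continuousOn,
      ← cfc_mul gm gm c hgmc.continuousOn hgmc.continuousOn,
      ← cfc_sub _ _ c (by fun_prop) (by fun_prop)]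
    have : (fun x => gp x * gp x - gm x * gm x) = fun x : ℝ => x := by
      funext x
      rw [Real.mul_self_sqrt (le_max_right _ _), Real.mul_self_sqrt (le_max_right _ _)]
      rcases le_total x 0 with h | h
      · rw [max_eq_right h, max_eq_left (neg_nonneg.2 h)]; ring
      · rw [max_eq_left h, max_eq_right (neg_nonpos.2 h)]; ring
    rw [this, cfc_id' ℝ c]
  have ep : ∀ ζ, ‖π bp ζ‖ ≤ √(‖π c ζ‖ * ‖ζ‖) := by
    intro ζ
    refine (sq_le π bp sp ζ).trans (Real.sqrt_le_sqrt ?_)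
    have := orth_le π bp bm sp h0 ζ
    rw [hsub] at this
    exact mul_le_mul_of_nonneg_right this (norm_nonneg _)
  have em : ∀ ζ, ‖π bm ζ‖ ≤ √(‖π c ζ‖ * ‖ζ‖) := by
    intro ζ
    refine (sq_le π bm sm ζ).trans (Real.sqrt_le_sqrt ?_)
    have := orth_le π bm bp sm h0' ζ
    have h2 : bm * bm - bp * bp = -c := by rw [← hsub]; abel
    rw [h2, map_neg, neg_apply, norm_neg] at this
    exact mul_le_mul_of_nonneg_right this (norm_nonneg _)
  have hDc : ⟪η, D c ξ⟫_ℂ = ⟪η, D (bp * bp) ξ⟫_ℂ - ⟪η, D (bm * bm) ξ⟫_ℂ := by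
    rw [← inner_sub_right, ← sub_apply, ← map_sub, hsub]
  have hP := half π D hD C hC hb bp sp np ξ η
  have hM := half π D hD C hC hb bm sm nm ξ η
  rw [hDc]
  refine (norm_sub_le _ _).trans ?_
  have e1 : ‖π bp η‖ * ‖ξ‖ + ‖η‖ * ‖π bp ξ‖ ≤ √(‖π c η‖ * ‖η‖) * ‖ξ‖ + ‖η‖ * √(‖π c ξ‖ * ‖ξ‖) :=
    add_le_add (mul_le_mul_of_nonneg_right (ep η) (norm_nonneg _))
      (mul_le_mul_of_nonneg_left (ep ξ) (norm_nonneg _))
  have e2 : ‖π bm η‖ * ‖ξ‖ + ‖η‖ * ‖π bm ξ‖ ≤ √(‖π c η‖ * ‖η‖) * ‖ξ‖ + ‖η‖ * √(‖π c ξ‖ * ‖ξ‖) :=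
    add_le_add (mul_le_mul_of_nonneg_right (em η) (norm_nonneg _))
      (mul_le_mul_of_nonneg_left (em ξ) (norm_nonneg _))
  have e3 := mul_le_mul_of_nonneg_left e1 hC
  have e4 := mul_le_mul_of_nonneg_left e2 hC
  linarith

end H770R2.Kad
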