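import Mathlib
import Pool.Agent.H770R2.Kad.Kap
import Pool.Agent.H770R2.Kad.Props

/-!
Kaplansky density.
-/

set_option linter.unusedSectionVars false

open scoped ComplexOrder InnerProductSpace

noncomputable section

namespace H770R2.Kad

open H759R2.Kad

universe u v

variable {H : Type v} [NormedAddCommGroup H] [InnerProductSpace ℂ H] [CompleteSpace H]

theorem sa_inner {T : H →L[ℂ] H} (hT : IsSelfAdjoint T) (a b : H) : ⟪a, T b⟫_ℂ = ⟪T a, b⟫_ℂ := by
  have h := ContinuousLinearMap.adjoint_inner_left T b a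
  rw [← ContinuousLinearMap.star_eq_adjoint, hT.star_eq] at h
  exact h.symm

/-- Density of the self-adjoint part. -/
theorem sa_dense {A : Type u} [CStarAlgebra A] (π : A →⋆ₐ[ℂ] (H →L[ℂ] H)) (x : H →L[ℂ] H)
    (hx : IsSelfAdjoint x)
    (hb : ∀ y : H →L[ℂ] H, (∀ a, y * π a = π a * y) → y * x = x * y) (n : ℕ) (η : Fin n → H)
    (ε : ℝ) (hε : 0 < ε) : ∃ b, IsSelfAdjoint b ∧ ∀ k, ‖π b (η k) - x (η k)‖ < ε := by
  let vec : (H →L[ℂ] H) → HH (Fin n) H := fun T => WithLp.toLp 2 (fun k => T (η k))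
  have vec_apply : ∀ T k, vec T k = T (η k) := fun T k => rfl
  let S : Set (HH (Fin n) H) := {v | ∃ b : A, IsSelfAdjoint b ∧ v = vec (π b)}
  have hSconv : Convex ℝ S := by
    rintro _ ⟨b, hb1, rfl⟩ _ ⟨c, hc1, rfl⟩ s t hs ht hst
    refine ⟨s • b + t • c, ((IsSelfAdjoint.all s).smul hb1).add ((IsSelfAdjoint.all t).smul hc1), ?_⟩
    ext k
    simp only [PiLp.add_apply, PiLp.smul_apply, vec_apply, map_add, add_apply]
    have h1 : ∀ (r : ℝ) (a : A), π (r • a) = r • π a := by
      intro r a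
      have : (r : ℂ) • a = r • a := Complex.coe_smul r a
      rw [← this, map_smul]
      ext z
      simp
    rw [h1, h1]
    rfl
  by_contra hcon
  have hnot : vec x ∉ closure S := by
    intro hmem
    apply hcon
    obtain ⟨v, ⟨b, hb1, rfl⟩, hv⟩ := Metric.mem_closure_iff.1 hmem ε hε
    refine ⟨b, hb1, fun k => ?_⟩
    have h1 : ‖(vec (π b) - vec x) k‖ ≤ ‖vec (π b) - vec x‖ := PiLp.norm_apply_le _ k
    have h2 : (vec (π b) - vec x) k = π b (η k) - x (η k) := rfl
    rw [h2] at h1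
    refine lt_of_le_of_lt h1 ?_
    rwa [dist_eq_norm, norm_sub_rev] at hv
  obtain ⟨f, u, hfx, hfS⟩ := RCLike.geometric_hahn_banach_point_closed (𝕜 := ℂ)
    hSconv.closure isClosed_closure hnot
  let h : HH (Fin n) H := (InnerProductSpace.toDual ℂ (HH (Fin n) H)).symm f
  have hf : ∀ v, f v = ∑ k, ⟪h k, v k⟫_ℂ := by
    intro v
    rw [← PiLp.inner_apply]
    exact (InnerProductSpace.toDual_symm_apply (x := v) (y := f)).symm
  have hu : u < 0 := by
    have h1 := hfS (vec (π 0)) (subset_closure ⟨0, IsSelfAdjoint.zero A, rfl⟩)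
    have h2 : vec (π 0) = 0 := by
      ext k
      rw [vec_apply, map_zero]
      rfl
    rw [h2, map_zero] at h1
    simpa using h1
  have hre : ∀ b : A, IsSelfAdjoint b → (f (vec (π b))).re = 0 := by
    intro b hb1
    have key : ∀ t : ℝ, u < t * (f (vec (π b))).re := by
      intro t
      have h1 := hfS (vec (π ((t : ℂ) • b))) (subset_closure ⟨(t : ℂ) • b, by
        have := (IsSelfAdjoint.all t).smul hb1
        rwa [← Complex.coe_smul] at this, rfl⟩)
      have h2 : vec (π ((t : ℂ) • b)) = (t : ℂ) • vec (π b) := by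
        ext k
        rw [vec_apply, map_smul]
        rfl
      rw [h2, map_smul, smul_eq_mul] at h1
      change u < ((t : ℂ) * f (vec (π b))).re at h1
      rwa [Complex.re_ofReal_mul] at h1
    by_contra hne
    have h1 := key ((u - 1) / (f (vec (π b))).re)
    rw [div_mul_cancel₀ _ hne] at h1
    linarith
  -- the symmetric functional
  let ψ : (H →L[ℂ] H) → ℂ := fun T => ∑ k, (⟪h k, T (η k)⟫_ℂ + ⟪η k, T (h k)⟫_ℂ)
  have hψsa : ∀ T : H →L[ℂ] H, IsSelfAdjoint T → ψ T = (2 * (f (vec T)).re : ℝ) := by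
    intro T hT
    have h1 : ∀ k, ⟪η k, T (h k)⟫_ℂ = (starRingEnd ℂ) ⟪h k, T (η k)⟫_ℂ := by
      intro k
      rw [inner_conj_symm, sa_inner hT]
    simp only [ψ, h1, hf, vec_apply]
    rw [Complex.re_sum, Finset.mul_sum, Complex.ofReal_sum]
    refine Finset.sum_congr rfl fun k _ => ?_
    rw [Complex.add_conj]
  have hψadd : ∀ S T, ψ (S + T) = ψ S + ψ T := by
    intro S T
    simp only [ψ, add_apply, inner_add_right]
    rw [← Finset.sum_add_distrib]
    refine Finset.sum_congr rfl fun k _ => by ring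
  have hψsmul : ∀ (c : ℂ) T, ψ (c • T) = c * ψ T := by
    intro c T
    simp only [ψ, smul_apply, inner_smul_right]
    rw [Finset.mul_sum]
    refine Finset.sum_congr rfl fun k _ => by ring
  have hψ0 : ∀ a : A, ψ (π a) = 0 := by
    intro a
    have h1 : ∀ b : A, IsSelfAdjoint b → ψ (π b) = 0 := by
      intro b hb1
      rw [hψsa _ (hb1.map π), hre b hb1]
      simp
    have h2 : a = (realPart a : A) + Complex.I • (imaginaryPart a : A) :=
      (realPart_add_I_smul_imaginaryPart a).symm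
    rw [h2, map_add, map_smul, hψadd, hψsmul, h1 _ (realPart a).2, h1 _ (imaginaryPart a).2]
    simp
  -- approximation
  set s : ℝ := ∑ k, (‖h k‖ + ‖η k‖) with hs
  have hs0 : 0 ≤ s := Finset.sum_nonneg fun k _ => by positivity
  obtain ⟨a, ha⟩ := bicomm π x hb (n + n) (Fin.append η (fun k => h k)) (-u / (s + 1))
    (div_pos (by linarith) (by linarith))
  have ha1 : ∀ k, ‖π a (η k) - x (η k)‖ < -u / (s + 1) := by
    intro k
    have := ha (Fin.castAdd n k)
    rwa [Fin.append_left] at this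
  have ha2 : ∀ k, ‖π a (h k) - x (h k)‖ < -u / (s + 1) := by
    intro k
    have := ha (Fin.natAdd n k)
    rwa [Fin.append_right] at this
  have hx1 : ψ x = ψ (x - π a) := by
    have h1 : ψ x = ψ ((x - π a) + π a) := by rw [sub_add_cancel]
    rw [h1, hψadd, hψ0, add_zero]
  have hx2 : ‖ψ (x - π a)‖ ≤ s * (-u / (s + 1)) := by
    refine (norm_sum_le _ _).trans ?_
    rw [hs, Finset.sum_mul]
    refine Finset.sum_le_sum fun k _ => ?_
    rw [add_mul]
    refine (norm_add_le _ _).trans (add_le_add ?_ ?_)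
    · refine (norm_inner_le_norm _ _).trans (mul_le_mul_of_nonneg_left ?_ (norm_nonneg _))
      have := (ha1 k).le
      rwa [norm_sub_rev] at this
    · refine (norm_inner_le_norm _ _).trans (mul_le_mul_of_nonneg_left ?_ (norm_nonneg _))
      have := (ha2 k).le
      rwa [norm_sub_rev] at this
  have hx3 : s * (-u / (s + 1)) < -u := by
    rw [mul_div_assoc', div_lt_iff₀ (by linarith)]
    nlinarith
  rw [← hx1, hψsa x hx, Complex.norm_real, Real.norm_eq_abs] at hx2
  have h5 : (f (vec x)).re < u := hfx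
  have h6 : -(2 * (f (vec x)).re) ≤ |2 * (f (vec x)).re| := neg_le_abs _
  linarith

/-! ### The functions -/

/-- `(1 + c²)⁻¹`. -/
def RR {B : Type*} [CStarAlgebra B] (c : B) : B := cfc (fun t : ℝ => (1 + t ^ 2)⁻¹) c

/-- `2 c (1 + c²)⁻¹`. -/
def FF {B : Type*} [CStarAlgebra B] (c : B) : B := cfc (fun t : ℝ => 2 * t / (1 + t ^ 2)) c

theorem contR : Continuous (fun t : ℝ => (1 + t ^ 2)⁻¹) := by
  refine Continuous.inv₀ (by fun_prop) fun t => ?_
  positivity

theorem contF : Continuous (fun t : ℝ => 2 * t / (1 + t ^ 2)) := by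
  refine Continuous.div (by fun_prop) (by fun_prop) fun t => ?_
  positivity

section fn

variable {B : Type*} [CStarAlgebra B] {c : B}

theorem normF (c : B) : ‖FF c‖ ≤ 1 := by
  refine norm_cfc_le zero_le_one fun t _ => ?_
  rw [Real.norm_eq_abs, abs_le]
  constructor
  · rw [le_div_iff₀ (by positivity)]
    nlinarith [sq_nonneg (1 + t)]
  · rw [div_le_iff₀ (by positivity)]
    nlinarith [sq_nonneg (1 - t)]

theorem normR (c : B) : ‖RR c‖ ≤ 1 := by
  refine norm_cfc_le zero_le_one fun t _ => ?_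
  rw [Real.norm_eq_abs, abs_of_nonneg (by positivity)]
  exact inv_le_one_of_one_le₀ (by nlinarith [sq_nonneg t])

theorem cfc_self (hc : IsSelfAdjoint c) : cfc (fun t : ℝ => t) c = c := cfc_id' ℝ c hc

theorem RR_mul (hc : IsSelfAdjoint c) : RR c * (1 + c * c) = 1 := by
  have h1 : (1 + c * c : B) = cfc (fun t : ℝ => 1 + t * t) c := by
    rw [cfc_add c (fun _ => 1) (fun t : ℝ => t * t), cfc_mul (fun t : ℝ => t) (fun t : ℝ => t) c,
      cfc_self hc, cfc_const_one ℝ c]
  rw [h1, RR, ← cfc_mul _ _ c contR.continuousOn]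
  rw [← cfc_const_one ℝ c]
  refine cfc_congr fun t _ => ?_
  have : (1 + t ^ 2 : ℝ) ≠ 0 := by positivity
  field_simp

theorem mul_RR (hc : IsSelfAdjoint c) : (1 + c * c) * RR c = 1 := by
  have h1 : (1 + c * c : B) = cfc (fun t : ℝ => 1 + t * t) c := by
    rw [cfc_add c (fun _ => 1) (fun t : ℝ => t * t), cfc_mul (fun t : ℝ => t) (fun t : ℝ => t) c,
      cfc_self hc, cfc_const_one ℝ c]
  rw [h1, RR, ← cfc_mul _ _ c (by fun_prop) contR.continuousOn]
  rw [← cfc_const_one ℝ c]
  refine cfc_congr fun t _ => ?_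
  have : (1 + t ^ 2 : ℝ) ≠ 0 := by positivity
  field_simp

theorem FF_eq (hc : IsSelfAdjoint c) : FF c = 2 * (RR c * c) := by
  have h2 : RR c * c = cfc (fun t : ℝ => (1 + t ^ 2)⁻¹ * t) c := by
    rw [cfc_mul _ (fun t : ℝ => t) c contR.continuousOn, cfc_self hc, RR]
  rw [h2, two_mul, ← cfc_add c _ _ (by
    exact (contR.mul continuous_id).continuousOn) (by exact (contR.mul continuous_id).continuousOn),
    FF]
  refine cfc_congr fun t _ => ?_
  ring

theorem FF_eq' (hc : IsSelfAdjoint c) : FF c = 2 * (c * RR c) := by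
  have h2 : c * RR c = cfc (fun t : ℝ => t * (1 + t ^ 2)⁻¹) c := by
    rw [cfc_mul (fun t : ℝ => t) _ c continuous_id.continuousOn contR.continuousOn,
      cfc_self hc, RR]
  rw [h2, two_mul, ← cfc_add c _ _ (by
    exact (continuous_id.mul contR).continuousOn) (by exact (continuous_id.mul contR).continuousOn),
    FF]
  refine cfc_congr fun t _ => ?_
  ring

theorem FF_sub {b y : B} (hb : IsSelfAdjoint b) (hy : IsSelfAdjoint y) :
    2 * (FF b - FF y) = 4 * (RR b * (b - y) * RR y) - FF b * (b - y) * FF y := by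
  have h1 := RR_mul hb
  have h2 := mul_RR hy
  have h3 : FF b = 2 * (RR b * b) := FF_eq hb
  have h4 : FF y = 2 * (y * RR y) := FF_eq' hy
  rw [h3, h4]
  have h5 : RR b * b = RR b * b * ((1 + y * y) * RR y) := by rw [h2, mul_one]
  have h6 : y * RR y = (RR b * (1 + b * b)) * (y * RR y) := by rw [h1, one_mul]
  have h7 : 2 * (2 * (RR b * b) - 2 * (y * RR y)) =
      2 * (2 * (RR b * b * ((1 + y * y) * RR y)) - 2 * ((RR b * (1 + b * b)) * (y * RR y))) := by
    rw [← h5, ← h6]
  rw [h7]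
  noncomm_ring

end fn

theorem prove_kap : G_kap.{u, v} := by
  intro A _ H _ _ _ π x hx hx1 hb n ξ ε hε
  let g : ℝ → ℝ := fun t => t / (1 + √(1 - t ^ 2))
  have hg : Continuous g := by
    refine Continuous.div (by fun_prop) (by fun_prop) fun t => ?_
    have := Real.sqrt_nonneg (1 - t ^ 2)
    positivity
  set y : H →L[ℂ] H := cfc g x with hy
  have hysa : IsSelfAdjoint y := cfc_predicate g x
  have hyx : FF y = x := by
    rw [FF, hy, ← cfc_comp' _ g x (hf := hg.continuousOn) (hg := contF.continuousOn)]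
    conv_rhs => rw [← cfc_self hx]
    refine cfc_congr fun t ht => ?_
    have h1 : |t| ≤ 1 := by
      have h2 : ‖t‖ ≤ ‖x‖ * ‖(1 : H →L[ℂ] H)‖ := spectrum.norm_le_norm_mul_of_mem ht
      have h3 : ‖(1 : H →L[ℂ] H)‖ ≤ 1 := ContinuousLinearMap.norm_id_le
      rw [Real.norm_eq_abs] at h2
      nlinarith [norm_nonneg x, norm_nonneg (1 : H →L[ℂ] H)]
    have h2 : 0 ≤ 1 - t ^ 2 := by
      nlinarith [abs_le.1 h1, sq_abs t, abs_nonneg t]
    have h3 := Real.sq_sqrt h2
    set s := √(1 - t ^ 2) with hs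
    have hs0 : 0 ≤ s := Real.sqrt_nonneg _
    have h4 : 1 + s ≠ 0 := by positivity
    simp only [g]
    rw [← hs]
    have h5 : 1 + (t / (1 + s)) ^ 2 = 2 / (1 + s) := by
      rw [div_pow, show t ^ 2 = (1 - s) * (1 + s) by nlinarith]
      field_simp
      ring
    rw [h5]
    field_simp
  have hyb : ∀ z : H →L[ℂ] H, (∀ a, z * π a = π a * z) → z * y = y * z := by
    intro z hz
    have h1 : Commute x z := (hb z hz).symm
    exact (hx.commute_cfc h1 g).symm.eq
  obtain ⟨b, hb1, hb2⟩ := sa_dense π y hysa hyb (n + n)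
    (Fin.append (fun k => RR y (ξ k)) (fun k => x (ξ k))) (ε / 3) (by positivity)
  have hb3 : ∀ k, ‖(π b - y) (RR y (ξ k))‖ < ε / 3 := by
    intro k
    have := hb2 (Fin.castAdd n k)
    rwa [Fin.append_left] at this
  have hb4 : ∀ k, ‖(π b - y) (x (ξ k))‖ < ε / 3 := by
    intro k
    have := hb2 (Fin.natAdd n k)
    rwa [Fin.append_right] at this
  have hπF : π (FF b) = FF (π b) := by
    rw [FF, FF]
    exact StarAlgHomClass.map_cfc π _ b (hf := contF.continuousOn)
      (hφ := AddMonoidHomClass.continuous_of_bound π 1 (fun a => by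
        rw [one_mul]
        exact NonUnitalStarAlgHom.norm_apply_le π a))
  refine ⟨FF b, cfc_predicate _ b, normF b, fun k => ?_⟩
  have h1 := FF_sub (hb1.map π) hysa
  rw [hyx] at h1
  have h2 : (2 : ℂ) • ((π (FF b) - x) (ξ k)) =
      (4 : ℂ) • (RR (π b) ((π b - y) (RR y (ξ k)))) - FF (π b) ((π b - y) (x (ξ k))) := by
    rw [hπF]
    have h3 := congrArg (fun T : H →L[ℂ] H => T (ξ k)) h1
    have e2 : ∀ T : H →L[ℂ] H, 2 * T = (2 : ℂ) • T := fun T => by
      ext z
      simp [two_mul, two_smul]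
    have e4 : ∀ T : H →L[ℂ] H, 4 * T = (4 : ℂ) • T := fun T => by
      have : (4 : H →L[ℂ] H) = 2 * 2 := by norm_num
      rw [this, mul_assoc, e2, e2, smul_smul]
      norm_num
    rw [e2, e4] at h3
    exact h3
  have h3 : ‖(2 : ℂ) • ((π (FF b) - x) (ξ k))‖ ≤ 4 * (ε / 3) + ε / 3 := by
    rw [h2]
    refine (norm_sub_le _ _).trans (add_le_add ?_ ?_)
    · rw [norm_smul]
      have h4 : ‖RR (π b) ((π b - y) (RR y (ξ k)))‖ ≤ ε / 3 := by
        refine ((RR (π b)).le_opNorm _).trans ?_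
        have := normR (π b)
        have h5 := (hb3 k).le
        nlinarith [norm_nonneg ((π b - y) (RR y (ξ k)))]
      have : ‖(4 : ℂ)‖ = 4 := by norm_num
      rw [this]
      linarith
    · refine ((FF (π b)).le_opNorm _).trans ?_
      have := normF (π b)
      have h5 := (hb4 k).le
      nlinarith [norm_nonneg ((π b - y) (x (ξ k)))]
  rw [norm_smul] at h3
  have : ‖(2 : ℂ)‖ = 2 := by norm_num
  rw [this] at h3
  have h4 : (π (FF b) - x) (ξ k) = π (FF b) (ξ k) - x (ξ k) := rfl
  rw [h4] at h3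
  linarith

end H770R2.Kad
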