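import Mathlib
import Pool.Agent.H770R2.Kad.Props

/-!
# NET: bounded nets in the bicommutant (task of helper143)
-/

open scoped ComplexOrder InnerProductSpace

noncomputable section

namespace H770R2.Kad

open H759R2.Kad

universe u v

namespace Net

variable {A : Type u} [CStarAlgebra A]
  {H : Type v} [NormedAddCommGroup H] [InnerProductSpace ℂ H] [CompleteSpace H]

/-- `x` commutes with the commutant of the range -/
def Bic (π : A →⋆ₐ[ℂ] (H →L[ℂ] H)) (x : H →L[ℂ] H) : Prop :=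
  ∀ y : H →L[ℂ] H, (∀ a, y * π a = π a * y) → y * x = x * y

theorem Bic.star {π : A →⋆ₐ[ℂ] (H →L[ℂ] H)} {x : H →L[ℂ] H} (h : Bic π x) : Bic π (star x) := by
  intro y hy
  have h1 : ∀ a, (Star.star y) * π a = π a * (Star.star y) := by
    intro a
    have h2 := congrArg Star.star (hy (Star.star a))
    rw [star_mul, star_mul, ← map_star, star_star] at h2
    exact h2.symm
  have h3 := congrArg Star.star (h (Star.star y) h1)
  rw [star_mul, star_mul, star_star] at h3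
  exact h3.symm

theorem Bic.add {π : A →⋆ₐ[ℂ] (H →L[ℂ] H)} {x y : H →L[ℂ] H} (hx : Bic π x) (hy : Bic π y) :
    Bic π (x + y) := by
  intro z hz
  rw [mul_add, add_mul, hx z hz, hy z hz]

theorem Bic.smul {π : A →⋆ₐ[ℂ] (H →L[ℂ] H)} {x : H →L[ℂ] H} (hx : Bic π x) (c : ℂ) :
    Bic π (c • x) := by
  intro z hz
  rw [mul_smul_comm, smul_mul_assoc, hx z hz]

theorem one_step (h1 : G_kap.{u, v}) (π : A →⋆ₐ[ℂ] (H →L[ℂ] H)) {x : H →L[ℂ] H}
    (hx : Bic π x) (hs : IsSelfAdjoint x) (F : Finset H) {δ : ℝ} (hδ : 0 < δ) :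
    ∃ a : A, IsSelfAdjoint a ∧ ‖a‖ ≤ ‖x‖ ∧ ∀ ζ ∈ F, ‖π a ζ - x ζ‖ < δ := by
  by_cases h0 : x = 0
  · subst h0
    refine ⟨0, IsSelfAdjoint.zero A, by simp, fun ζ _ => ?_⟩
    simpa using hδ
  · have hr : 0 < ‖x‖ := norm_pos_iff.2 h0
    have hr' : ((‖x‖ : ℝ) : ℂ) ≠ 0 := by exact_mod_cast hr.ne'
    have hsx : IsSelfAdjoint ((((‖x‖)⁻¹ : ℝ) : ℂ) • x) := by
      rw [isSelfAdjoint_iff, star_smul, hs.star_eq]
      congr 1
      exact Complex.conj_ofReal _
    have hn : ‖(((‖x‖)⁻¹ : ℝ) : ℂ) • x‖ ≤ 1 := by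
      rw [norm_smul, Complex.norm_real, norm_inv, norm_norm, inv_mul_cancel₀ hr.ne']
    obtain ⟨b, hb1, hb2, hb3⟩ := h1 A H π _ hsx hn (hx.smul _) F.card
      (fun k => (F.equivFin.symm k : H)) (δ / ‖x‖) (by positivity)
    refine ⟨((‖x‖ : ℝ) : ℂ) • b, ?_, ?_, ?_⟩
    · rw [isSelfAdjoint_iff, star_smul, hb1.star_eq]
      congr 1
      exact Complex.conj_ofReal _
    · rw [norm_smul, Complex.norm_real, norm_norm]
      exact mul_le_of_le_one_right hr.le hb2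
    · intro ζ hζ
      have h2 := hb3 (F.equivFin ⟨ζ, hζ⟩)
      simp only [Equiv.symm_apply_apply] at h2
      have h3 : π (((‖x‖ : ℝ) : ℂ) • b) ζ - x ζ =
          ((‖x‖ : ℝ) : ℂ) • (π b ζ - ((((‖x‖)⁻¹ : ℝ) : ℂ) • x) ζ) := by
        rw [map_smul, _root_.smul_apply, _root_.smul_apply, smul_sub,
          smul_smul]
        congr 1
        push_cast
        rw [mul_inv_cancel₀ hr', one_smul]
      rw [h3, norm_smul, Complex.norm_real, norm_norm]
      calc ‖x‖ * ‖π b ζ - ((((‖x‖)⁻¹ : ℝ) : ℂ) • x) ζ‖ < ‖x‖ * (δ / ‖x‖) :=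
            mul_lt_mul_of_pos_left h2 hr
        _ = δ := by field_simp

theorem sa_net (h1 : G_kap.{u, v}) (π : A →⋆ₐ[ℂ] (H →L[ℂ] H)) {x : H →L[ℂ] H}
    (hx : Bic π x) (hs : IsSelfAdjoint x) :
    ∃ a : Ix H → A, (∀ i, IsSelfAdjoint (a i)) ∧ (∀ i, ‖a i‖ ≤ ‖x‖) ∧
      ∀ ζ, Filter.Tendsto (fun i => π (a i) ζ) Filter.atTop (nhds (x ζ)) := by
  have h2 : ∀ i : Ix H, ∃ a : A, IsSelfAdjoint a ∧ ‖a‖ ≤ ‖x‖ ∧
      ∀ ζ ∈ i.1, ‖π a ζ - x ζ‖ < 1 / ((i.2 : ℝ) + 1) := fun i =>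
    one_step h1 π hx hs i.1 (by positivity)
  choose a ha1 ha2 ha3 using h2
  refine ⟨a, ha1, ha2, fun ζ => ?_⟩
  rw [Metric.tendsto_nhds]
  intro ε hε
  obtain ⟨N, hN⟩ := exists_nat_one_div_lt hε
  refine (Filter.eventually_ge_atTop ((({ζ} : Finset H), N) : Ix H)).mono fun i hi => ?_
  have h3 : ζ ∈ i.1 := hi.1 (Finset.mem_singleton_self ζ)
  have h4 : N ≤ i.2 := hi.2
  rw [dist_eq_norm]
  refine (ha3 i ζ h3).trans (lt_of_le_of_lt ?_ hN)
  have h5 : (N : ℝ) ≤ i.2 := by exact_mod_cast h4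
  exact one_div_le_one_div_of_le (by positivity) (by linarith)

end Net

open Net in
theorem prove_net (h1 : G_kap.{u, v}) : G_net.{u, v} := by
  intro A _ H _ _ _ π x hx
  obtain ⟨x1, hx1⟩ : ∃ x1 : H →L[ℂ] H, x1 = (1 / 2 : ℂ) • (x + star x) := ⟨_, rfl⟩
  obtain ⟨x2, hx2⟩ : ∃ x2 : H →L[ℂ] H, x2 = (-Complex.I / 2 : ℂ) • (x + (-1 : ℂ) • star x) :=
    ⟨_, rfl⟩
  have hb : Bic π x := hx
  have b1 : Bic π x1 := by rw [hx1]; exact (hb.add hb.star).smul _
  have b2 : Bic π x2 := by rw [hx2]; exact (hb.add (hb.star.smul _)).smul _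
  have s1 : IsSelfAdjoint x1 := by
    rw [isSelfAdjoint_iff, hx1, star_smul, star_add, star_star, add_comm]
    congr 1
    simp
  have s2 : IsSelfAdjoint x2 := by
    rw [isSelfAdjoint_iff, hx2, star_smul, star_add, star_smul, star_star]
    simp only [smul_add, smul_smul]
    rw [add_comm]
    congr 1
    · congr 1
      simp
      ring
    · congr 1
      simp
      ring
  have e1 : x = x1 + Complex.I • x2 := by
    rw [hx1, hx2]
    simp only [smul_add, smul_smul]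
    have i1 : Complex.I * (-Complex.I / 2) = 1 / 2 := by
      rw [mul_div_assoc', mul_neg, Complex.I_mul_I, neg_neg]
    have i2 : Complex.I * (-Complex.I / 2 * -1) = -(1 / 2) := by
      rw [← mul_assoc, i1]; ring
    rw [i1, i2, neg_smul]
    have : x = (1 / 2 : ℂ) • x + (1 / 2 : ℂ) • x := by
      rw [← add_smul]; norm_num
    nth_rewrite 1 [this]
    abel
  have e2 : star x = x1 - Complex.I • x2 := by
    nth_rewrite 1 [e1]
    rw [star_add, star_smul, s1.star_eq, s2.star_eq]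
    have : star Complex.I = -Complex.I := Complex.conj_I
    rw [this, neg_smul, sub_eq_add_neg]
  have n1 : ‖x1‖ ≤ ‖x‖ := by
    rw [hx1, norm_smul]
    have h3 : ‖(1 / 2 : ℂ)‖ = 1 / 2 := by norm_num
    rw [h3]
    have h4 := norm_add_le x (star x)
    rw [norm_star] at h4
    linarith
  have n2 : ‖x2‖ ≤ ‖x‖ := by
    rw [hx2, norm_smul]
    have h3 : ‖(-Complex.I / 2 : ℂ)‖ = 1 / 2 := by
      rw [norm_div, norm_neg, Complex.norm_I]; norm_num
    rw [h3]
    have h4 := norm_add_le x ((-1 : ℂ) • star x)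
    rw [norm_smul, norm_star, norm_neg, norm_one, one_mul] at h4
    linarith
  obtain ⟨a1, a1s, a1n, a1l⟩ := sa_net h1 π b1 s1
  obtain ⟨a2, a2s, a2n, a2l⟩ := sa_net h1 π b2 s2
  have hn : ∀ i, ‖a1 i + Complex.I • a2 i‖ ≤ 2 * ‖x‖ := by
    intro i
    refine (norm_add_le _ _).trans ?_
    rw [norm_smul, Complex.norm_I, one_mul]
    linarith [a1n i, a2n i]
  refine ⟨fun i => a1 i + Complex.I • a2 i, ⟨⟨2 * ‖x‖, hn⟩, ?_, ?_⟩, hn⟩
  · intro ζ
    have h2 := (a1l ζ).add ((a2l ζ).const_smul Complex.I)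
    have h3 : x ζ = x1 ζ + Complex.I • x2 ζ := by
      nth_rewrite 1 [e1]
      rfl
    rw [h3]
    refine h2.congr fun i => ?_
    rw [map_add, map_smul]
    rfl
  · intro ζ
    have h2 := (a1l ζ).sub ((a2l ζ).const_smul Complex.I)
    have h3 : star x ζ = x1 ζ - Complex.I • x2 ζ := by
      rw [e2]
      rfl
    rw [h3]
    refine h2.congr fun i => ?_
    have h4 : star (a1 i + Complex.I • a2 i) = a1 i - Complex.I • a2 i := by
      rw [star_add, star_smul, (a1s i).star_eq, (a2s i).star_eq]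
      have : star Complex.I = -Complex.I := Complex.conj_I
      rw [this, neg_smul, sub_eq_add_neg]
    rw [h4, map_sub, map_smul]
    rfl

end H770R2.Kad
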