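import Mathlib
import Pool.Agent.H770R2.Kad.Kap2
import Pool.Agent.H770R2.Kad.KAD
import Pool.Agent.H770R2.Kad.Net
import Pool.Agent.H439R2.Kad.Null
import Pool.Agent.H847R2.Kad5.Wlim
import Pool.Agent.H267R2.Kad5.Xext
import Pool.Agent.H409R2.Kad.Lift
import Pool.Agent.H804R2.Kad3.Quot
import Pool.Agent.H479R2.Kad.PURE
import Pool.Agent.H579R2.Kad5.GNS
import Pool.Agent.H477R2.Kad5.Rep
import Pool.Agent.H298R2.Kad.Corner
import Pool.Agent.H881R2.Kad.PFib
import Pool.Agent.H488R2.Kad3.Units
import Pool.Agent.H720R2.Kad4.Dhom

/-!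
Assembly: extension and localisation.
-/

noncomputable section

namespace H770R2.Kad

open H759R2.Kad

/-- Extension of derivations to the generated von Neumann algebra. -/
theorem x_ext2 : X_ext2 := prove_xext (prove_net prove_kap) (prove_null prove_kad) prove_wlim

/-- Localisation at the points of the centre. -/
theorem p_fib : H710R2.DP.P_fib :=
  prove_pfib (prove_rep prove_pure prove_pure prove_gns prove3_units)
    (prove_quot prove_lift) prove_corner prove4_dhom

end H770R2.Kad

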