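import Mathlib
import Pool.Agent.H770R2.Kad.HProps

open scoped ComplexOrder InnerProductSpace

noncomputable section

namespace H770R2.Kad

open H759R2.Kad

universe u v

namespace Hfib

section basic

variable {L : Type} [NormedAddCommGroup L] [InnerProductSpace ℂ L] [CompleteSpace L]
  {M : VonNeumannAlgebra L}

theorem cp_norm {p : M.toStarSubalgebra} (hp : CP M p) : ‖p‖ ≤ 1 := by
  have h : ‖p‖ * ‖p‖ = ‖p‖ := by
    rw [← CStarRing.norm_star_mul_self, hp.1, hp.2.1]
  nlinarith [norm_nonneg p, sq_nonneg (‖p‖ - 1)]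

theorem exists_ult (F : Set M.toStarSubalgebra) (hF : CUlt M F) :
    ∃ U : Ultrafilter F, ∀ q ∈ F, ∀ᶠ p : F in (U : Filter F), q * (p : M.toStarSubalgebra) = p := by
  let f : F → Filter F := fun q => Filter.principal {p : F | (q : M.toStarSubalgebra) * p = p}
  have : Nonempty F := ⟨⟨1, hF.one⟩⟩
  have hne : (iInf f).NeBot := by
    apply Filter.iInf_neBot_of_directed
    · intro a b
      have ha := hF.cp a.1 a.2
      have hb := hF.cp b.1 b.2
      refine ⟨⟨a.1 * b.1, hF.mul a.1 a.2 b.1 b.2⟩, ?_, ?_⟩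
      · apply Filter.principal_mono.2
        intro p hp
        change (a.1 * b.1) * (p : M.toStarSubalgebra) = p at hp
        change a.1 * (p : M.toStarSubalgebra) = p
        calc a.1 * (p : M.toStarSubalgebra) = a.1 * ((a.1 * b.1) * p) := by rw [hp]
          _ = (a.1 * a.1 * b.1) * p := by simp only [mul_assoc]
          _ = p := by rw [ha.2.1, hp]
      · apply Filter.principal_mono.2
        intro p hp
        change (a.1 * b.1) * (p : M.toStarSubalgebra) = p at hp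
        change b.1 * (p : M.toStarSubalgebra) = p
        calc b.1 * (p : M.toStarSubalgebra) = b.1 * ((a.1 * b.1) * p) := by rw [hp]
          _ = (b.1 * (b.1 * a.1)) * p := by
            rw [← ha.2.2 b.1]
            simp only [mul_assoc]
          _ = ((b.1 * b.1) * a.1) * p := by simp only [mul_assoc]
          _ = (a.1 * b.1) * p := by rw [hb.2.1, hb.2.2 a.1]
          _ = p := hp
    · intro q
      apply Filter.principal_neBot_iff.2
      exact ⟨q, (hF.cp q.1 q.2).2.1⟩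
  refine ⟨Ultrafilter.of (iInf f), ?_⟩
  intro q hq
  have h1 : (Ultrafilter.of (iInf f) : Filter F) ≤ f ⟨q, hq⟩ :=
    le_trans (Ultrafilter.of_le _) (iInf_le _ _)
  exact h1 (Filter.mem_principal_self _)

end basic

section up

variable {I : Type} {U : Ultrafilter I}
  {H : Type} [NormedAddCommGroup H] [InnerProductSpace ℂ H] [CompleteSpace H]
  {K : Type} [NormedAddCommGroup K] [InnerProductSpace ℂ K] [CompleteSpace K]
  {Q : (I → H) → K} {O : (I → (H →L[ℂ] H)) → (K →L[ℂ] K)}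

theorem norm_lim (hUP : IsUP U Q O) {x : I → H} (hx : Bd x) :
    Filter.Tendsto (fun i => ‖x i‖ ^ 2) U (nhds (‖Q x‖ ^ 2)) := by
  have h := hUP.inn x x hx hx
  have h2 := (Complex.continuous_re.tendsto _).comp h
  have e1 : (Complex.re ∘ fun i => ⟪x i, x i⟫_ℂ) = fun i => ‖x i‖ ^ 2 := by
    funext i
    simp only [Function.comp]
    rw [inner_self_eq_norm_sq_to_K]
    norm_cast
  have e2 : (⟪Q x, Q x⟫_ℂ).re = ‖Q x‖ ^ 2 := by
    rw [inner_self_eq_norm_sq_to_K]
    norm_cast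
  rw [e1, e2] at h2
  exact h2

omit [CompleteSpace H] [CompleteSpace K] in
theorem Q_zero (hlin : ∀ x y (c : ℂ), Bd x → Bd y → Q (fun i => c • x i + y i) = c • Q x + Q y) :
    Q (fun _ => 0) = 0 := by
  have hb : Bd (fun _ : I => (0 : H)) := ⟨0, fun i => by simp⟩
  have h := hlin (fun _ => 0) (fun _ => 0) 1 hb hb
  simp only [smul_zero, add_zero, one_smul] at h
  exact left_eq_add.mp h

theorem Q_sum (hlin : ∀ x y (c : ℂ), Bd x → Bd y → Q (fun i => c • x i + y i) = c • Q x + Q y)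
    {J : Type} (s : Finset J) (z : J → I → H) (hz : ∀ j, Bd (z j)) :
    Bd (fun i => ∑ j ∈ s, z j i) ∧ Q (fun i => ∑ j ∈ s, z j i) = ∑ j ∈ s, Q (z j) := by
  classical
  induction s using Finset.induction_on with
  | empty =>
    simp only [Finset.sum_empty]
    exact ⟨⟨0, fun i => by simp⟩, Q_zero hlin⟩
  | insert a s ha ih =>
    obtain ⟨⟨r, hr⟩, h2⟩ := ih
    obtain ⟨r', hr'⟩ := hz a
    refine ⟨⟨r' + r, fun i => ?_⟩, ?_⟩
    · simp only [Finset.sum_insert ha]
      exact (norm_add_le _ _).trans (add_le_add (hr' i) (hr i))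
    · have h3 := hlin (z a) (fun i => ∑ j ∈ s, z j i) 1 ⟨r', hr'⟩ ⟨r, hr⟩
      rw [one_smul, h2] at h3
      rw [Finset.sum_insert ha, ← h3]
      congr 1
      funext i
      rw [Finset.sum_insert ha, one_smul]

end up

theorem exists_vec {E : Type} [NormedAddCommGroup E] [InnerProductSpace ℂ E] (T : E →L[ℂ] E)
    {κ : ℝ} (hκ : 0 < κ) (h : κ ≤ ‖T‖) : ∃ x : E, ‖x‖ ≤ 1 ∧ κ / 2 ≤ ‖T x‖ := by
  by_contra hcon
  push Not at hcon
  have h1 : ‖T‖ ≤ κ / 2 := by
    refine ContinuousLinearMap.opNorm_le_bound _ (by positivity) fun x => ?_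
    by_cases hx : x = 0
    · subst hx
      simp
    · have hn : 0 < ‖x‖ := norm_pos_iff.2 hx
      have h2 := hcon (((‖x‖⁻¹ : ℝ) : ℂ) • x) (by
        rw [norm_smul, Complex.norm_real, Real.norm_of_nonneg (by positivity),
          inv_mul_cancel₀ hn.ne'])
      rw [map_smul, norm_smul, Complex.norm_real, Real.norm_of_nonneg (by positivity)] at h2
      have h3 : ‖x‖⁻¹ * ‖T x‖ * ‖x‖ ≤ κ / 2 * ‖x‖ := mul_le_mul_of_nonneg_right h2.le hn.le
      have h4 : ‖x‖⁻¹ * ‖T x‖ * ‖x‖ = ‖T x‖ := by field_simp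
      linarith
  linarith

end Hfib

open Hfib

theorem prove_hfib (h1 : H_up.{0}) (h2 : H_upalg.{0}) : H_hfib := by
  intro L _ _ _ M F hF H _ _ _ W hW c hc hWc m X κ hκ hX
  obtain ⟨U, hU⟩ := exists_ult F hF
  obtain ⟨Kh, _, _, _, Q, O, hUP⟩ := h1 F U H
  obtain ⟨hQlin, hOlin, hOmul, -, -, -, hOle, -⟩ := h2 F U H Kh Q O hUP
  have hc0 : 0 ≤ c := le_trans zero_le_one hc
  let fam : M.toStarSubalgebra → F → (H →L[ℂ] H) := fun a p => W ((p : M.toStarSubalgebra) * a)
  have hpn : ∀ p : F, ‖(p : M.toStarSubalgebra)‖ ≤ 1 := fun p => cp_norm (hF.cp p.1 p.2)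
  have hfb : ∀ a (p : F), ‖fam a p‖ ≤ c * ‖a‖ := by
    intro a p
    refine (hWc _).trans (mul_le_mul_of_nonneg_left ?_ hc0)
    refine (norm_mul_le _ _).trans ?_
    calc ‖(p : M.toStarSubalgebra)‖ * ‖a‖ ≤ 1 * ‖a‖ :=
          mul_le_mul_of_nonneg_right (hpn p) (norm_nonneg _)
      _ = ‖a‖ := one_mul _
  have hBd : ∀ a, Bd (fam a) := fun a => ⟨c * ‖a‖, hfb a⟩
  have hfmul : ∀ a b (p : F), fam a p * fam b p = fam (a * b) p := by
    intro a b p
    have hp := hF.cp p.1 p.2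
    change W (p.1 * a) * W (p.1 * b) = W (p.1 * (a * b))
    rw [← hW.mul]
    congr 1
    calc p.1 * a * (p.1 * b) = (p.1 * a) * p.1 * b := by simp only [mul_assoc]
      _ = (p.1 * (p.1 * a)) * b := by rw [hp.2.2 (p.1 * a)]
      _ = (p.1 * p.1) * (a * b) := by simp only [mul_assoc]
      _ = p.1 * (a * b) := by rw [hp.2.1]
  have hOf : ∀ a b, O (fam a) * O (fam b) = O (fam (a * b)) := by
    intro a b
    rw [← hOmul _ _ (hBd a) (hBd b)]
    congr 1
    funext p
    exact hfmul a b p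
  set E : Kh →L[ℂ] Kh := O (fam 1) with hE
  have hEf : ∀ a x, E (O (fam a) x) = O (fam a) x := by
    intro a x
    have := hOf 1 a
    rw [one_mul] at this
    exact congrArg (fun T : Kh →L[ℂ] Kh => T x) this
  have hfE : ∀ a x, O (fam a) (E x) = O (fam a) x := by
    intro a x
    have := hOf a 1
    rw [mul_one] at this
    exact congrArg (fun T : Kh →L[ℂ] Kh => T x) this
  -- the closed subspace
  let Ks : Submodule ℂ Kh := LinearMap.ker ((E - 1 : Kh →L[ℂ] Kh) : Kh →ₗ[ℂ] Kh)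
  have hmem : ∀ x, x ∈ Ks ↔ E x = x := by
    intro x
    change (E - 1 : Kh →L[ℂ] Kh) x = 0 ↔ _
    rw [sub_apply, one_apply_eq_self, sub_eq_zero]
  have hclosed : IsClosed (Ks : Set Kh) := (E - 1 : Kh →L[ℂ] Kh).isClosed_ker
  have : CompleteSpace Ks := hclosed.completeSpace_coe
  have hcod : ∀ a (x : Ks), ((O (fam a)).comp Ks.subtypeL) x ∈ Ks := by
    intro a x
    rw [hmem]
    exact hEf a x
  have hfadd : ∀ a b, O (fam (a + b)) = O (fam a) + O (fam b) := by
    intro a b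
    have := hOlin (fam a) (fam b) 1 (hBd a) (hBd b)
    rw [one_smul] at this
    rw [← this]
    congr 1
    funext p
    change W (p.1 * (a + b)) = (1 : ℂ) • W (p.1 * a) + W (p.1 * b)
    rw [one_smul, mul_add, map_add]
  have hf0 : O (fam 0) = 0 := by
    have := hfadd 0 0
    rw [add_zero] at this
    exact left_eq_add.mp this
  have hfsmul : ∀ (r : ℂ) a, O (fam (r • a)) = r • O (fam a) := by
    intro r a
    have := hOlin (fam a) (fam 0) r (hBd a) (hBd 0)
    rw [hf0, add_zero] at this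
    rw [← this]
    congr 1
    funext p
    change W (p.1 * (r • a)) = r • W (p.1 * a) + W (p.1 * 0)
    rw [mul_smul_comm, map_smul, mul_zero, map_zero, add_zero]
  let w : M.toStarSubalgebra →ₗ[ℂ] (Ks →L[ℂ] Ks) :=
    { toFun := fun a => ((O (fam a)).comp Ks.subtypeL).codRestrict Ks (hcod a)
      map_add' := by
        intro a b
        ext x
        change O (fam (a + b)) (x : Kh) = O (fam a) (x : Kh) + O (fam b) (x : Kh)
        rw [hfadd]
        rfl
      map_smul' := by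
        intro r a
        ext x
        change O (fam (r • a)) (x : Kh) = r • O (fam a) (x : Kh)
        rw [hfsmul]
        rfl }
  have hw : ∀ a (x : Ks), ((w a x : Ks) : Kh) = O (fam a) (x : Kh) := fun a x => rfl
  have hOa : ∀ a, ∀ q ∈ F, ‖O (fam a)‖ ≤ c * ‖q * a‖ := by
    intro a q hq
    refine hOle _ _ (by positivity) (hBd a) ?_
    filter_upwards [hU q hq] with p hp
    have e : (p : M.toStarSubalgebra) * a = p * (q * a) := by
      have hq' := hF.cp q hq
      calc (p : M.toStarSubalgebra) * a = (q * p) * a := by rw [hp]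
        _ = (p * q) * a := by rw [hq'.2.2 p]
        _ = p * (q * a) := by rw [mul_assoc]
    change ‖W ((p : M.toStarSubalgebra) * a)‖ ≤ _
    rw [e]
    exact hfb (q * a) p
  refine ⟨Ks, inferInstance, inferInstance, inferInstance, w, ⟨?_, ?_⟩, ?_, ?_⟩
  · intro a b
    ext x
    change O (fam (a * b)) (x : Kh) = O (fam a) (O (fam b) (x : Kh))
    rw [← hOf]
    rfl
  · ext x
    change O (fam 1) (x : Kh) = x
    exact (hmem x).1 x.2
  · intro a q hq
    refine ContinuousLinearMap.opNorm_le_bound _ (by positivity) fun x => ?_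
    have : ‖w a x‖ = ‖O (fam a) (x : Kh)‖ := rfl
    rw [this]
    refine ((O (fam a)).le_opNorm _).trans ?_
    exact mul_le_mul_of_nonneg_right (hOa a q hq) (norm_nonneg _)
  · -- the lower bound
    have hvec : ∀ p : F, ∃ x : HH (Fin m) H, ‖x‖ ≤ 1 ∧
        κ / 2 ≤ ‖(dg m (W p) * amp W (Fin m) X) x‖ := fun p => exists_vec _ hκ (hX p.1 p.2)
    choose ξ hξ1 hξ2 using hvec
    have hξb : ∀ j, Bd (fun p : F => ξ p j) := fun j =>
      ⟨1, fun p => (PiLp.norm_apply_le (ξ p) j).trans (hξ1 p)⟩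
    let Ξ : HH (Fin m) Kh := WithLp.toLp 2 fun j => Q (fun p : F => ξ p j)
    have hΞj : ∀ j, Ξ j = Q (fun p : F => ξ p j) := fun j => rfl
    have hΞ : ‖Ξ‖ ≤ 1 := by
      have h3 : Filter.Tendsto (fun p : F => ∑ j, ‖ξ p j‖ ^ 2) U (nhds (∑ j, ‖Ξ j‖ ^ 2)) :=
        tendsto_finsetSum _ fun j _ => norm_lim hUP (hξb j)
      have h4 : ∑ j, ‖Ξ j‖ ^ 2 ≤ 1 := by
        refine le_of_tendsto h3 (Filter.Eventually.of_forall fun p => ?_)
        rw [← PiLp.norm_sq_eq_of_L2]
        have := hξ1 p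
        nlinarith [norm_nonneg (ξ p)]
      rw [← PiLp.norm_sq_eq_of_L2] at h4
      nlinarith [norm_nonneg Ξ]
    have hEn : ‖E‖ ≤ c := by
      have := hOa 1 1 hF.one
      rw [one_mul] at this
      have h5 : ‖(1 : M.toStarSubalgebra)‖ ≤ 1 := hpn ⟨1, hF.one⟩
      calc ‖E‖ ≤ c * ‖(1 : M.toStarSubalgebra)‖ := this
        _ ≤ c * 1 := mul_le_mul_of_nonneg_left h5 hc0
        _ = c := mul_one c
    let Ξ' : HH (Fin m) Ks := WithLp.toLp 2 fun j => ⟨E (Ξ j), (hmem _).2 (by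
      have := hEf 1 (Ξ j)
      exact this)⟩
    have hΞ'j : ∀ j, ((Ξ' j : Ks) : Kh) = E (Ξ j) := fun j => rfl
    have hΞ' : ‖Ξ'‖ ≤ c := by
      have h3 : ‖Ξ'‖ ^ 2 ≤ c ^ 2 := by
        rw [PiLp.norm_sq_eq_of_L2]
        have h4 : ∀ j, ‖Ξ' j‖ ^ 2 ≤ c ^ 2 * ‖Ξ j‖ ^ 2 := by
          intro j
          have h5 : ‖Ξ' j‖ = ‖E (Ξ j)‖ := rfl
          rw [h5, ← mul_pow]
          refine pow_le_pow_left₀ (norm_nonneg _) ?_ 2
          exact (E.le_opNorm _).trans (mul_le_mul_of_nonneg_right hEn (norm_nonneg _))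
        refine (Finset.sum_le_sum fun j _ => h4 j).trans ?_
        rw [← Finset.mul_sum, ← PiLp.norm_sq_eq_of_L2]
        have h6 : ‖Ξ‖ ^ 2 ≤ 1 := by nlinarith [norm_nonneg Ξ]
        have h7 : 0 ≤ c ^ 2 := sq_nonneg c
        nlinarith
      exact (sq_le_sq₀ (norm_nonneg _) hc0).1 h3
    -- the vectors y
    let T : F → (HH (Fin m) H →L[ℂ] HH (Fin m) H) := fun p => dg m (W p) * amp W (Fin m) X
    have hT : ∀ (p : F) (i : Fin m), (T p (ξ p)) i = ∑ j, fam (X i j) p (ξ p j) := by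
      intro p i
      change (dg m (W p) (amp W (Fin m) X (ξ p))) i = _
      rw [dg_apply, amp_apply, map_sum]
      refine Finset.sum_congr rfl fun j _ => ?_
      change W p.1 (W (X i j) (ξ p j)) = W (p.1 * X i j) (ξ p j)
      rw [hW.mul]
      rfl
    have hzb : ∀ i j, Bd (fun p : F => fam (X i j) p (ξ p j)) := by
      intro i j
      refine ⟨c * ‖X i j‖ * 1, fun p => ?_⟩
      refine ((fam (X i j) p).le_opNorm _).trans ?_
      refine mul_le_mul (hfb _ _) ((PiLp.norm_apply_le (ξ p) j).trans (hξ1 p)) (norm_nonneg _)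
        (by positivity)
    have hyb : ∀ i, Bd (fun p : F => (T p (ξ p)) i) := by
      intro i
      have h3 := (Q_sum hQlin Finset.univ (fun j p => fam (X i j) p (ξ p j)) (hzb i)).1
      simpa only [hT] using h3
    have hQy : ∀ i, ((amp w (Fin m) X Ξ' i : Ks) : Kh) = Q (fun p : F => (T p (ξ p)) i) := by
      intro i
      have h3 := (Q_sum hQlin Finset.univ (fun j p => fam (X i j) p (ξ p j)) (hzb i)).2
      simp only [hT]
      rw [h3, amp_apply, Submodule.coe_sum]
      refine Finset.sum_congr rfl fun j _ => ?_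
      rw [hw, hΞ'j, hfE, hΞj]
      exact hUP.act (fam (X i j)) (fun p : F => ξ p j) (hBd _) (hξb j)
    have hlow : (κ / 2) ^ 2 ≤ ‖amp w (Fin m) X Ξ'‖ ^ 2 := by
      have h3 : Filter.Tendsto (fun p : F => ∑ i, ‖(T p (ξ p)) i‖ ^ 2) U
          (nhds (∑ i, ‖Q (fun p : F => (T p (ξ p)) i)‖ ^ 2)) :=
        tendsto_finsetSum _ fun i _ => norm_lim hUP (hyb i)
      have h4 : ‖amp w (Fin m) X Ξ'‖ ^ 2 = ∑ i, ‖Q (fun p : F => (T p (ξ p)) i)‖ ^ 2 := by
        rw [PiLp.norm_sq_eq_of_L2]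
        refine Finset.sum_congr rfl fun i _ => ?_
        rw [← hQy i]
        rfl
      rw [h4]
      refine ge_of_tendsto h3 (Filter.Eventually.of_forall fun p => ?_)
      rw [← PiLp.norm_sq_eq_of_L2]
      exact pow_le_pow_left₀ (by positivity) (hξ2 p) 2
    have hlow' : κ / 2 ≤ ‖amp w (Fin m) X Ξ'‖ :=
      (sq_le_sq₀ (by positivity) (norm_nonneg _)).1 hlow
    have hup : ‖amp w (Fin m) X Ξ'‖ ≤ ‖amp w (Fin m) X‖ * c :=
      ((amp w (Fin m) X).le_opNorm _).trans (mul_le_mul_of_nonneg_left hΞ' (norm_nonneg _))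
    linarith

end H770R2.Kad
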