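import Mathlib
import Pool.Agent.H710R2.DP.Final
import Pool.Agent.H711R2.KG.G1
import Pool.Agent.H770R2.Kad.HProps
import Pool.Agent.H909R2.KZ.Piet
import Pool.Agent.H278R2.Kad7.DSum
import Pool.Agent.H278R2.Kad7.Up
import Pool.Agent.H278R2.Kad7.UpAlg
import Pool.Agent.H910R2.Kad7.Uni
import Pool.Agent.H55R2.Kad5.Ult
import Pool.Agent.H770R2.Kad.HFIB
import Pool.Agent.H197R2.Kad.HVN
import Pool.Agent.H58R4.Kad7.CB
import Pool.Agent.H338R2.KZ.Fib
import Pool.Agent.H593R2.Kad7.Hext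
import Pool.Agent.H579R2.Kad5.GNS
import Pool.Agent.H409R2.Kad.Lift
import Pool.Agent.H770R2.Kad.Net

/-!
Final assembly: bounded homomorphisms of all C*-algebras are completely bounded and similar to
*-homomorphisms.
-/

noncomputable section

namespace H770R2.Kad

open H759R2.Kad

theorem fin_hfibre : H_fibre := by
  intro H _ _ _ M B _ _ _ φ hφ hz K _ _ _ w hw c hc hb m
  refine H711R2.KG.g_fibre H M B φ hφ (fun z hzc => ?_) K w hw c hc hb m
  obtain ⟨l, hl⟩ := hz z hzc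
  exact ⟨l, by rw [hl, Algebra.algebraMap_eq_smul_one]⟩

theorem fin_hfib : H_fib :=
  prove_fib prove_up prove_upalg prove_lift (H710R2.DP.dp_span H710R2.DP.fin_bin)

theorem fin_hvn : H_vn :=
  prove_hvn prove_ult fin_hfib (prove_hfib prove_up prove_upalg) fin_hfibre

/-- Bounded homomorphisms of C*-algebras are completely bounded. -/
theorem fin_hcb : H_cb :=
  prove_hcb (prove_uni (prove_piet H710R2.DP.fin_gt) prove_dsum prove_gns)
    (prove_hext (prove_net prove_kap)) fin_hvn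

/-- Bounded homomorphisms of C*-algebras are similar to *-homomorphisms. -/
theorem fin_similar (A : Type) [CStarAlgebra A]
    (H : Type) [NormedAddCommGroup H] [InnerProductSpace ℂ H] [CompleteSpace H]
    (u : A →ₗ[ℂ] (H →L[ℂ] H)) (hu : IsHom u) (c : ℝ) (hc : 1 ≤ c) (hb : ∀ a, ‖u a‖ ≤ c * ‖a‖) :
    ∃ S S' : H →L[ℂ] H, S * S' = 1 ∧ S' * S = 1 ∧ ‖S‖ ^ 2 ≤ 864 * (2 * c) ^ 29 ∧
      ‖S'‖ ^ 2 ≤ 864 * (2 * c) ^ 29 ∧ ∀ a, star (S * u a * S') = S * u (star a) * S' := by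
  letI : PartialOrder A := CStarAlgebra.spectralOrder A
  letI : StarOrderedRing A := CStarAlgebra.spectralOrderedRing A
  refine final_similar A H u hu (864 * (2 * c) ^ 29) ?_ (fin_hcb A H u hu c hc hb)
  have : (1 : ℝ) ≤ (2 * c) ^ 29 := one_le_pow₀ (by linarith)
  linarith

end H770R2.Kad
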