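import Mathlib
import Pool.Agent.H770R2.Kad.ACProps
import Pool.Agent.H332R2.Kad4.NoMin
import Pool.Agent.H445R2.Kad4.Range

/-!
Finite dimension from the absence of infinite orthogonal sequences of projections.
-/

open scoped ComplexOrder InnerProductSpace

noncomputable section

namespace H770R2.Kad

open H759R2.Kad

universe u

namespace AC3

open F07 Finset

variable {A : Type u} [CStarAlgebra A]

/-- no infinite orthogonal sequence of nonzero projections under `f` -/
def NS (f : A) : Prop :=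
  ¬ ∃ p : ℕ → A, (∀ n, star (p n) = p n ∧ p n * p n = p n ∧ p n ≠ 0 ∧ f * p n = p n) ∧
    ∀ m n, m ≠ n → p m * p n = 0

theorem scalar_sa [PartialOrder A] [StarOrderedRing A] (hR : HR A) {p : A} (hp : HM p)
    {a : A} (ha : star a = a) (hpa : p * a = a) : ∃ c : ℂ, a = c • p := by
  have hap : a * p = a := by
    have := congrArg star hpa
    rwa [star_mul, ha, hp.sa] at this
  have hpap : star p * a * p = a := by rw [hp.sa, hpa, hap]
  have hpp : ∀ t : ℝ, star p * (algebraMap ℝ A t) * p = t • p := by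
    intro t
    rw [hp.sa, Algebra.algebraMap_eq_smul_one, mul_smul_comm, smul_mul_assoc, mul_one, hp.idem]
  have hcont : Continuous fun t : ℝ => a - t • p :=
    continuous_const.sub (continuous_id.smul continuous_const)
  have hU : IsClosed {t : ℝ | 0 ≤ a - t • p} := isClosed_le continuous_const hcont
  have hV : IsClosed {t : ℝ | a - t • p ≤ 0} := isClosed_le hcont continuous_const
  have hUV : (Set.univ : Set ℝ) ⊆ {t : ℝ | 0 ≤ a - t • p} ∪ {t : ℝ | a - t • p ≤ 0} := by
    intro t _
    have hbs : star (a - t • p) = a - t • p := by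
      rw [star_sub, star_smul, ha, hp.sa]; simp
    have hpb : p * (a - t • p) = a - t • p := by
      rw [mul_sub, hpa, mul_smul_comm, hp.idem]
    rcases sign hR hp hbs hpb with h | h
    · exact Or.inl h
    · exact Or.inr (neg_nonneg.1 h)
  have hsa : IsSelfAdjoint a := ha
  have hne1 : (Set.univ ∩ {t : ℝ | 0 ≤ a - t • p}).Nonempty := by
    refine ⟨-‖a‖, trivial, ?_⟩
    have h1 := hsa.neg_algebraMap_norm_le_self
    have h2 := star_left_conjugate_le_conjugate h1 p
    rw [← map_neg, hpp, hpap] at h2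
    exact sub_nonneg.2 h2
  have hne2 : (Set.univ ∩ {t : ℝ | a - t • p ≤ 0}).Nonempty := by
    refine ⟨‖a‖, trivial, ?_⟩
    have h1 := hsa.le_algebraMap_norm_self
    have h2 := star_left_conjugate_le_conjugate h1 p
    rw [hpp, hpap] at h2
    exact sub_nonpos.2 h2
  obtain ⟨t, -, ht1, ht2⟩ := isPreconnected_closed_iff.1 isPreconnected_univ _ _ hU hV hUV hne1 hne2
  refine ⟨(t : ℂ), ?_⟩
  have h3 : a - t • p = 0 := le_antisymm ht2 ht1
  rw [sub_eq_zero] at h3
  rw [Complex.coe_smul]
  exact h3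

theorem scalar [PartialOrder A] [StarOrderedRing A] (hR : HR A) {p : A} (hp : HM p)
    {x : A} (h1 : p * x = x) (h2 : x * p = x) : ∃ c : ℂ, x = c • p := by
  have h3 : p * star x = star x := by
    have := congrArg star h2
    rwa [star_mul, hp.sa] at this
  obtain ⟨c, hc⟩ := scalar_sa hR hp (a := x + star x)
    (by rw [star_add, star_star, add_comm]) (by rw [mul_add, h1, h3])
  obtain ⟨d, hd⟩ := scalar_sa hR hp (a := Complex.I • (star x - x))
    (by
      rw [star_smul, star_sub, star_star]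
      simp only [RCLike.star_def, Complex.conj_I, neg_smul, ← smul_neg, neg_sub])
    (by rw [mul_smul_comm, mul_sub, h1, h3])
  refine ⟨(1 / 2 : ℂ) * (c + Complex.I * d), ?_⟩
  have h4 : (2 : ℂ) • x = (x + star x) + Complex.I • (Complex.I • (star x - x)) := by
    rw [smul_smul, Complex.I_mul_I, two_smul]
    simp
  rw [hc, hd, smul_smul, ← add_smul] at h4
  calc x = (1 / 2 : ℂ) • ((2 : ℂ) • x) := by rw [smul_smul]; norm_num
    _ = _ := by rw [h4, smul_smul]

/-- `q M p` is at most one dimensional -/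
theorem line [PartialOrder A] [StarOrderedRing A] (hR : HR A) {p q : A} (hp : HM p)
    (hq : HM q) : ∃ v : A, ∀ a : A, ∃ c : ℂ, q * a * p = c • v := by
  by_cases h : ∃ v : A, q * v * p ≠ 0
  · obtain ⟨v0, hv0⟩ := h
    obtain ⟨v, hv⟩ : ∃ v, v = q * v0 * p := ⟨_, rfl⟩
    rw [← hv] at hv0
    have hqv : q * v = v := by rw [hv, ← mul_assoc, ← mul_assoc, hq.idem]
    have hvp : v * p = v := by rw [hv, mul_assoc, hp.idem]
    have hvq : star v * q = star v := by
      have := congrArg star hqv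
      rwa [star_mul, hq.sa] at this
    have hpv : p * star v = star v := by
      have := congrArg star hvp
      rwa [star_mul, hp.sa] at this
    obtain ⟨c, hc⟩ := scalar hR hp (x := star v * v)
      (by rw [← mul_assoc, hpv]) (by rw [mul_assoc, hvp])
    have hc0 : c ≠ 0 := by
      intro h0
      rw [h0, zero_smul] at hc
      exact hv0 ((CStarRing.star_mul_self_eq_zero_iff _).1 hc)
    refine ⟨v, fun a => ?_⟩
    obtain ⟨d, hd⟩ := scalar hR hq (x := (q * a * p) * star v)
      (by rw [← mul_assoc, ← mul_assoc, ← mul_assoc, hq.idem]) (by rw [mul_assoc, hvq])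
    refine ⟨c⁻¹ * d, ?_⟩
    have h5 : c • (q * a * p) = d • v := by
      calc c • (q * a * p) = (q * a * p) * (c • p) := by
            rw [mul_smul_comm, mul_assoc (q * a), hp.idem]
        _ = (q * a * p) * (star v * v) := by rw [hc]
        _ = ((q * a * p) * star v) * v := by rw [← mul_assoc]
        _ = d • v := by rw [hd, smul_mul_assoc, hqv]
    rw [mul_smul, ← h5, smul_smul, inv_mul_cancel₀ hc0, one_smul]
  · push Not at h
    exact ⟨0, fun a => ⟨0, by rw [h a, smul_zero]⟩⟩

/-- no strictly decreasing sequence of projections under `f` -/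
theorem no_anti {f : A} (hf : NS f) (r : ℕ → A)
    (h1 : ∀ n, star (r n) = r n ∧ r n * r n = r n ∧ f * r n = r n)
    (h2 : ∀ n, r n * r (n + 1) = r (n + 1)) (h3 : ∀ n, r (n + 1) ≠ r n) : False := by
  have h4 : ∀ m k, r m * r (m + k) = r (m + k) := by
    intro m k
    induction k with
    | zero => exact (h1 m).2.1
    | succ k ih =>
      rw [← add_assoc, ← h2 (m + k), ← mul_assoc, ih]
  have h4' : ∀ m n, m ≤ n → r m * r n = r n := by
    intro m n hmn
    obtain ⟨k, rfl⟩ := Nat.exists_eq_add_of_le hmn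
    exact h4 m k
  have h5 : ∀ n, r (n + 1) * r n = r (n + 1) := by
    intro n
    have := congrArg star (h2 n)
    rwa [star_mul, (h1 n).1, (h1 (n + 1)).1] at this
  have h6 : ∀ m n, m < n → (r m - r (m + 1)) * (r n - r (n + 1)) = 0 := by
    intro m n hmn
    rw [sub_mul, mul_sub, mul_sub, h4' m n hmn.le, h4' m (n + 1) (by omega),
      h4' (m + 1) n hmn, h4' (m + 1) (n + 1) (by omega), sub_self]
  apply hf
  refine ⟨fun n => r n - r (n + 1), fun n => ⟨?_, ?_, ?_, ?_⟩, ?_⟩
  · rw [star_sub, (h1 n).1, (h1 (n + 1)).1]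
  · rw [sub_mul, mul_sub, mul_sub, (h1 n).2.1, (h1 (n + 1)).2.1, h2, h5, sub_self, sub_zero]
  · intro h
    exact h3 n (sub_eq_zero.1 h).symm
  · rw [mul_sub, (h1 n).2.2, (h1 (n + 1)).2.2]
  · intro m n hmn
    rcases lt_or_gt_of_ne hmn with h | h
    · exact h6 m n h
    · have := congrArg star (h6 n m h)
      rw [star_mul, star_zero, star_sub, star_sub, (h1 n).1, (h1 (n + 1)).1, (h1 m).1,
        (h1 (m + 1)).1] at this
      exact this

/-- every nonzero projection under `f` dominates a minimal one -/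
theorem dom {f : A} (hf : NS f) (p : A) (hp1 : star p = p) (hp2 : p * p = p)
    (hp3 : p ≠ 0) (hp4 : f * p = p) : ∃ q : A, HM q ∧ p * q = q := by
  classical
  by_contra hcon
  push Not at hcon
  let S := {q : A // star q = q ∧ q * q = q ∧ q ≠ 0 ∧ p * q = q}
  have hnext : ∀ s : S, ∃ s' : S, (s : A) * (s' : A) = s' ∧ (s' : A) ≠ s := by
    rintro ⟨q, h1, h2, h3, h4⟩
    by_contra hc
    push Not at hc
    refine hcon q ⟨h1, h2, h3, ?_⟩ h4
    intro q' g1 g2 g3
    by_cases h0 : q' = 0
    · exact Or.inl h0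
    · right
      exact hc ⟨q', g1, g2, h0, by rw [← g3, ← mul_assoc, h4]⟩ g3
  choose nx hnx1 hnx2 using hnext
  obtain ⟨s, hs⟩ : ∃ s : ℕ → S, ∀ n, s (n + 1) = nx (s n) :=
    ⟨fun n => nx^[n] ⟨p, hp1, hp2, hp3, hp2⟩, fun n => Function.iterate_succ_apply' nx n _⟩
  refine no_anti hf (fun n => (s n : A)) (fun n => ⟨(s n).2.1, (s n).2.2.1, ?_⟩)
    (fun n => by rw [hs]; exact hnx1 (s n)) (fun n => by rw [hs]; exact hnx2 (s n))
  have h := (s n).2.2.2.2
  calc f * (s n : A) = f * (p * (s n : A)) := by rw [h]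
    _ = (f * p) * (s n : A) := by rw [mul_assoc]
    _ = (s n : A) := by rw [hp4, h]

/-- `f` is a finite sum of minimal projections -/
theorem fin_sum {f : A} (hf : NS f) (hf1 : star f = f) (hf2 : f * f = f) :
    ∃ (k : ℕ) (q : Fin k → A), (∀ i, HM (q i)) ∧ f = ∑ i, q i := by
  classical
  by_contra hcon
  let FS : A → Prop := fun e => ∃ (k : ℕ) (q : Fin k → A), (∀ i, HM (q i)) ∧ e = ∑ i, q i
  let S := {e : A // star e = e ∧ e * e = e ∧ f * e = e ∧ FS e}
  have hnext : ∀ s : S, ∃ s' : S, ∃ p : A, HM p ∧ (f - (s : A)) * p = p ∧ (s' : A) = s + p := by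
    rintro ⟨e, h1, h2, h3, h4⟩
    have h3' : e * f = e := by
      have := congrArg star h3
      rwa [star_mul, hf1, h1] at this
    have hne : f - e ≠ 0 := by
      intro h
      rw [sub_eq_zero] at h
      exact hcon (h ▸ h4)
    obtain ⟨p, hp, hpe⟩ := dom hf (f - e) (by rw [star_sub, hf1, h1])
      (by rw [sub_mul, mul_sub, mul_sub, hf2, h3, h3', h2, sub_self, sub_zero]) hne
      (by rw [mul_sub, hf2, h3])
    have hep : e * p = 0 := by
      rw [← hpe, ← mul_assoc, mul_sub, h3', h2, sub_self, zero_mul]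
    have hpe' : p * e = 0 := by
      have := congrArg star hep
      rwa [star_mul, star_zero, hp.sa, h1] at this
    have hfp : f * p = p := by
      have h := hpe
      rw [sub_mul, hep, sub_zero] at h
      exact h
    refine ⟨⟨e + p, ?_, ?_, ?_, ?_⟩, p, hp, hpe, rfl⟩
    · rw [star_add, h1, hp.sa]
    · rw [add_mul, mul_add, mul_add, h2, hep, hpe', hp.idem, add_zero, zero_add]
    · rw [mul_add, h3, hfp]
    · obtain ⟨k, q, hq, he⟩ := h4
      refine ⟨k + 1, Fin.cons p q, ?_, ?_⟩
      · intro i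
        refine Fin.cases ?_ (fun i => ?_) i
        · simpa using hp
        · simpa using hq i
      · rw [Fin.sum_univ_succ]
        simp only [Fin.cons_zero, Fin.cons_succ]
        rw [← he, add_comm]
  choose nx pp hpp1 hpp2 hpp3 using hnext
  have hz : FS 0 := ⟨0, fun i => i.elim0, fun i => i.elim0, by simp⟩
  obtain ⟨s, hs0⟩ : ∃ s : ℕ → S, ∀ n, s (n + 1) = nx (s n) :=
    ⟨fun n => nx^[n] ⟨0, by simp, by simp, by simp, hz⟩,
      fun n => Function.iterate_succ_apply' nx n _⟩
  have hs : ∀ n, ((s (n + 1) : S) : A) = (s n : A) + pp (s n) := fun n => by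
    rw [hs0]; exact hpp3 (s n)
  have hef : ∀ n, (s n : A) * f = s n := by
    intro n
    have := congrArg star (s n).2.2.2.1
    rwa [star_mul, hf1, (s n).2.1] at this
  have hr : ∀ n, star (f - (s n : A)) = f - s n ∧ (f - (s n : A)) * (f - s n) = f - s n ∧
      f * (f - (s n : A)) = f - s n := by
    intro n
    refine ⟨by rw [star_sub, hf1, (s n).2.1], ?_, by rw [mul_sub, hf2, (s n).2.2.2.1]⟩
    rw [sub_mul, mul_sub, mul_sub, hf2, (s n).2.2.2.1, hef, (s n).2.2.1, sub_self, sub_zero]
  refine no_anti hf (fun n => f - (s n : A)) hr ?_ ?_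
  · intro n
    have h1 : f - (s (n + 1) : A) = (f - (s n : A)) - pp (s n) := by rw [hs]; abel
    show (f - (s n : A)) * (f - (s (n + 1) : A)) = f - (s (n + 1) : A)
    rw [h1, mul_sub, (hr n).2.1, hpp2]
  · intro n h
    have h1 : f - (s (n + 1) : A) = (f - (s n : A)) - pp (s n) := by rw [hs]; abel
    have h2 : (f - (s (n + 1) : A)) = f - (s n : A) := h
    rw [h1] at h2
    exact (hpp1 (s n)).ne (sub_eq_self.1 h2)

theorem fin_span [PartialOrder A] [StarOrderedRing A] (hR : HR A) {f : A} (hf : NS f)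
    (hf1 : star f = f) (hf2 : f * f = f) :
    ∃ (k : ℕ) (v : Fin k → A), ∀ a, f * a * f ∈ Submodule.span ℂ (Set.range v) := by
  obtain ⟨k, q, hq, hfq⟩ := fin_sum hf hf1 hf2
  have hl : ∀ i j : Fin k, ∃ v : A, ∀ a : A, ∃ c : ℂ, q i * a * q j = c • v :=
    fun i j => line hR (hq j) (hq i)
  choose v hv using hl
  refine ⟨k * k, fun m => v (finProdFinEquiv.symm m).1 (finProdFinEquiv.symm m).2, fun a => ?_⟩
  have h1 : f * a * f = ∑ i, ∑ j, q i * a * q j := by
    conv_lhs => rw [hfq]
    rw [sum_mul, sum_mul_sum]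
  rw [h1]
  refine Submodule.sum_mem _ fun i _ => Submodule.sum_mem _ fun j _ => ?_
  obtain ⟨c, hc⟩ := hv i j a
  rw [hc]
  refine Submodule.smul_mem _ _ (Submodule.subset_span ⟨finProdFinEquiv (i, j), ?_⟩)
  simp

end AC3

open AC3 F07 in
theorem prove_rfin : R_fin.{u} := by
  intro H _ _ _ M f hf hns
  let _ : PartialOrder M.toStarSubalgebra := CStarAlgebra.spectralOrder _
  have _ : StarOrderedRing M.toStarSubalgebra := CStarAlgebra.spectralOrderedRing _
  have hR : HR M.toStarSubalgebra := by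
    intro b
    obtain ⟨r, hrM, hr, hr1, hr2⟩ := prove5_range H M b b.2
    refine ⟨⟨r, hrM⟩, Subtype.ext hr.1, Subtype.ext hr.2, Subtype.ext hr1, ?_⟩
    intro x hx
    exact Subtype.ext (hr2 x (congrArg Subtype.val hx))
  have hNS : NS f := by
    rintro ⟨p, h1, h2⟩
    apply hns
    refine ⟨fun n => (p n : H →L[ℂ] H), fun n => ⟨(p n).2,
      ⟨congrArg Subtype.val (h1 n).1, congrArg Subtype.val (h1 n).2.1⟩,
      fun h => (h1 n).2.2.1 (Subtype.ext h), congrArg Subtype.val (h1 n).2.2.2⟩, ?_⟩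
    intro m n hmn
    exact congrArg Subtype.val (h2 m n hmn)
  exact fin_span hR hNS (Subtype.ext hf.1) (Subtype.ext hf.2)

end H770R2.Kad
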